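import Pool.Agent.Run7.h225.HG.SYS2
import Pool.Agent.Run7.h225.HG.BLK
import Pool.Agent.Run7.h225.HG.Iface4
import Pool.Agent.Y119.ML.Fam2
import Pool.Agent.Y119.ML.LI

/-!
# Interface of the project HPL

Multiple polylogarithms and hypergeometric period matrices at the same fibres.

For an index `s = (s_1, …, s_r)` let `Li_s(z) = ∑_{k_1 > … > k_r ≥ 1} z^(k_1) / (k_1^(s_1) ⋯ k_r^(s_r))`. Let `Y_j` be the period
matrices of a good list of hypergeometric families (project HYG). The theorem: for almost all tuples of integers `t_i` all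
relations `∑_u P_u(log t_i, Y_ij(1/t_i) Ω_ij) ∏_i Li_{u_i}(1/t_i) = 0`, `P_u` polynomials of bounded degree over a space of
constants of bounded dimension, `u` runs over the tuples of indices of bounded weight, are trivial: every `P_u` vanishes on
`C^k` times the torsors. (By the shuffle relations these are all polynomial relations.)
-/

set_option autoImplicit false

open PowerSeries Matrix
open Pool.Agent.Y113 hiding Bm
open Pool.Agent.Y120.GF Pool.Agent.Y120.GH Pool.Agent.Y119.HZ
open Pool.Agent.Y119.HY (cm E Hf Yf Vr Rel Gal Sol)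
open Pool.Agent.Run7.h225.HG

namespace Pool.Agent.Run7.h225.HP

/-- the coefficients of the multiple polylogarithms -/
def mz : List ℕ → ℕ → ℚ
  | [], k => if k = 0 then 1 else 0
  | s :: l, k => (∑ j ∈ Finset.range k, mz l j) / (k : ℚ) ^ s

/-- the multiple polylogarithm -/
def li (s : List ℕ) : ℚ⟦X⟧ := PowerSeries.mk (mz s)

/-- the indices of weight at most `W` -/
abbrev Idx (W : ℕ) : Type := {s : List ℕ // (∀ x ∈ s, 1 ≤ x) ∧ s.sum ≤ W}

theorem Idx_finite (W : ℕ) : Finite (Idx W) := by
  have h1 : {s : List ℕ | (∀ x ∈ s, 1 ≤ x) ∧ s.sum ≤ W}.Finite := by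
    refine ((List.finite_length_le (Fin (W + 1)) W).image (List.map Fin.val)).subset ?_
    rintro s ⟨h1, h2⟩
    have h3 : ∀ x ∈ s, x < W + 1 := fun x hx => by
      have := List.single_le_sum (l := s) (fun _ _ => Nat.zero_le _) x hx
      omega
    refine ⟨s.pmap (fun x hx => (⟨x, hx⟩ : Fin (W + 1))) h3, ?_, ?_⟩
    · show (s.pmap _ h3).length ≤ W
      rw [List.length_pmap]
      exact (List.length_le_sum_of_one_le s h1).trans h2
    · rw [List.map_pmap]
      simp
  exact h1.to_subtype

noncomputable instance (W : ℕ) : Fintype (Idx W) := @Fintype.ofFinite _ (Idx_finite W)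

/-- **PLS.** All multiple polylogarithms of weight at most `W` are entries of the holomorphic part of the fundamental matrix
of a system.

Proof. Words `w : List Bool` of length `≤ W` (`m` is their number; `Fintype.equivFin`). Define `h_w ∈ ℚ⟦X⟧` by recursion on the
length: `h_[] = 1` and for `w ≠ []` `h_w = In(R_w)`,
`R_w = [w = 0 u] h_u + [w = 1 u] X * geo 1 * h_u - [w = u 0] h_u` (`In` divides the coefficient of `z^k` by `k`, in
`Y119/ML/Ser.lean`, `geo 1 = 1/(1 - z)`; the constant coefficient of `R_w` is `0` for all `w ≠ []`: for `w = [0]` it is `1 - 1`). Let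
`N(u, v) = 1` if `u = 0 v`, `B(u, v) = 1` if `u = 1 v`, `H(u, v) = h_w` if `u = w ++ v` and `0` if `v` is no suffix of `u`. The
recursion says `θ H = N H - H N + (z / (1 - z)) B H`, and the coefficients of this equation are `step`: for `k ≥ 0` let
`S_k = k H_k + H_k N - N H_k`; then `S_k = ∑_{l < k} B H_l`, so `S_{k+1} = S_k + B H_k`. `N` and `H - 1` are strictly triangular
for the length of words (the entry `(u, v)` is `0` unless `|u| > |v|`), so `N^m = 0`, `(1 - H)^m = 0`, and
`V = ∑_{i < m} (1 - H)^i` is the inverse of `H`. `SDc`: closed under sums, products and `In` (`SDp_In` in `Y119/ML/Fam2.lean`);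
`geo 1` by `sdc_of`. For `s = (s_1, …, s_r)` let `w = 0^(s_1 - 1) 1 ⋯ 0^(s_r - 1) 1`; then `H(w, []) = h_w = li s`, by induction:
the words `w` do not end in `0`, so `h_{0 u} = In(h_u)` and `h_{1 u} = In(X * geo 1 * h_u)`. -/
def S_PLS : Prop := ∀ W : ℕ, ∃ (m : ℕ) (N B : Matrix (Fin m) (Fin m) ℚ) (H V : Matrix (Fin m) (Fin m) ℚ⟦X⟧),
  Sys m N B H V ∧ ∀ s : Idx W, ∃ a b, H a b = li s.1

/-- no nontrivial multiple of `-log(1 - z)` is in the field generated by the functions `h` -/
def NoLog {N : ℕ} (h : Fin N → ℚ⟦X⟧) : Prop := ∀ P R : MvPolynomial (Fin N) (Polynomial ℚ),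
  MvPolynomial.aeval h P * li [1] = MvPolynomial.aeval h R → MvPolynomial.aeval h P = 0

/-- **IND.** The multiple polylogarithms are linearly independent over the field generated by the functions `h`, if
`log(1 - z)` is not in this field.

Proof. `graded_indep` in `Y119/ML/LI.lean` for `F = FF = HahnSeries ℤ ℚ`, `D = eul` (the derivation `z d/dz`, see
`Y119/ML/Frac.lean`), `K` the subfield generated by `pio p` (`p` a polynomial) and the `io (h i)`; its elements are
`io (aeval h P) / io (aeval h R)` with `aeval h R ≠ 0`. `B = Idx W`, `κ = Bool`, `u false = 1`, `u true = io (X * geo 1)`,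
`deg = sum`, `f s = io (li s)`, `n false s s' = 1` if `s = (a + 1) :: l`, `s' = a :: l`, `a ≥ 1`, and `n true s s' = 1` if
`s = 1 :: s'`, all other `n` are `0`. `θ Li_{(a+1) :: l} = Li_{a :: l}`, `θ Li_{1 :: l} = z / (1 - z) Li_l`.
`hprim`: let `D g = c₀ + c₁ z / (1 - z)` with constants `c₀, c₁` (rational numbers, as `eul c = 0` means that only the coefficient
at `0` is not `0`), `g ∈ K`. The coefficient of `z^0` gives `c₀ = 0`. So `D (g - c₁ io (li [1])) = 0`, `g = c₁ io (li [1]) + c`,
and `g = io (aeval h R) / io (aeval h P)`, so `c₁ = 0` by `NoLog`. `h0`: only `s = []` has degree `0`, `f [] = 1`. `hnd`: for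
`s = (a + 1) :: l`, `a ≥ 1`, the sum in `hnd` for `i = false`, `b' = a :: l` has only the term `b = s`; for `s = 1 :: l` take
`i = true`, `b' = l`. Finally if `∑ q_{βs} aeval h (F β) li s = 0`, then `∑_β q_{βs} aeval h (F β) = 0` for all `s`, and `q = 0`. -/
def S_IND : Prop := ∀ (N : ℕ) (h : Fin N → ℚ⟦X⟧) (T : Polynomial ℚ) (A : Fin N → Fin N → Polynomial ℚ), T ≠ 0 →
  (∀ i, (T : ℚ⟦X⟧) * d⁄dX ℚ (h i) = ∑ j, (A i j : ℚ⟦X⟧) * h j) → NoLog h →
  ∀ (σ : Type) [Fintype σ] (F : σ → MvPolynomial (Fin N) (Polynomial ℚ)),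
  LinearIndependent (Polynomial ℚ) (fun b => MvPolynomial.aeval h (F b)) → ∀ W : ℕ,
  LinearIndependent (Polynomial ℚ) (fun p : σ × Idx W => MvPolynomial.aeval h (F p.1) * li p.2.1)

/-- the relation on the interval `(0, 1)` between `z`, `log z`, `log (1 - z)` and the entries of `Y` -/
def NoLogY {n : ℕ} (Y : ℂ → Matrix (Fin n) (Fin n) ℂ) : Prop := ∀ P R : MvPolynomial (Vr n) ℂ,
  (∀ x : ℝ, 0 < x → x < 1 → Pool.Agent.Y119.HY.ev P x (Complex.log x) (Y x) * Complex.log (1 - x) =
    Pool.Agent.Y119.HY.ev R x (Complex.log x) (Y x)) → P ∈ Rel Y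

/-- **NL.** From functions on the interval to power series.

Proof. Let `aeval (hfg H) P * li [1] = aeval (hfg H) R`. The polynomial `PR (cm N) P` (`Y119/HY/Rl.lean`; see the proof of
`rel_inv_s` in `HG/SYS2.lean`) in `z, log z, Y` has at `x` the value of `aeval (hfg H) P` at `x` (`ev_PR`, `ev_aeval_s` with
`t = 1/x`, `ev_H`), the same for `R`, and `li [1]` has the value `-log(1 - x)`. So `NoLogY` for `PR P` and `-PR R` shows that
the value of `aeval (hfg H) P` is `0` for all `x ∈ (0, 1)`, hence the power series is `0` (it converges for `|z| < 1`; for the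
identity theorem for such series see for instance `Y119/HY/*.lean` or `Mathlib` `HasFPowerSeriesAt.eq_zero`). -/
def S_NL : Prop := ∀ (n : ℕ) (N B : Matrix (Fin n) (Fin n) ℚ) (H W : Matrix (Fin n) (Fin n) ℚ⟦X⟧), Sys n N B H W →
  NoLogY (Yf (cm N) (Hcg H)) → NoLog (hfg H)

/-- **ONE.** The arithmetic input for the products.

Proof. `max_li` (see `family_gsys` in `Y119/HY/Fam.lean`) gives a maximal linearly independent set `B` of the products
`yw (hfg H) b`, `b : Fin δ → Option _`, and `a`, `M`. By IND (`F β` the product of variables with `aeval h (F β) = yw h β`, `T`, `A`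
from `SYS1.ode_A2_s` in `HG/SYS1.lean`) the products `yw (hfg H) β * li s` are linearly independent over `ℚ[z]`. Let
`(m, N', B', H', V')` be as in PLS for `W`. `p_BLK` for the two systems (families over `Fin 2`) and `p_SYS1` for the direct sum
with `δ + 1` in place of `δ` give `B₁`, `a₁`, `M₁` and `One (XF (δ + 1) …)` for the products of at most `δ + 1` entries of
`blk (H, H')`; each `yw (hfg H) β * li s` is such a product, so `ps a₁ * (yw (hfg H) β * li s) = ∑_γ ps (M₂ (β, s) γ) * yw _ γ`,
with a matrix `M₂` of polynomials whose rows are linearly independent over `ℚ(z)` (as the products are linearly independent).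
So there are a matrix `L` of polynomials and a polynomial `d ≠ 0` with `M₂ L = d`. If the numbers `XF δ (products)` at a large
`t` (no roots of `a₁`, `d` at `1/t`) are bad for `V` with the coefficients `v`, then the numbers `XF (δ + 1) …` at `t` are bad
for `V` with the coefficients `∑ v M₂(1/t)` (rational multiples, not all `0` because of `L`). The finitely many small `t`
only change the constant in `One`. -/
def S_ONE : Prop := S_PLS → S_IND → ∀ (n : ℕ) (N B : Matrix (Fin n) (Fin n) ℚ) (H V : Matrix (Fin n) (Fin n) ℚ⟦X⟧),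
  Sys n N B H V → NoLog (hfg H) → ∀ δ W : ℕ,
  ∃ (B : Finset (Fin δ → Option (Fin (n * n)))) (a : Polynomial ℤ)
      (M : (Fin δ → Option (Fin (n * n))) → B → Polynomial ℤ), a ≠ 0 ∧
      (∀ b, ps a * yw (hfg H) b = ∑ β, ps (M b β) * yw (hfg H) β.1) ∧
      One (XF δ fun p : B × Idx W => yw (hfg H) p.1.1 * li p.2.1)

/-- **LT.** Relations which are linear in additional functions `y`.

Proof. As `tuples` in `Y120/H/Res.lean` (copy it): `val_expand` for each `P u` and the values of `y` give the relation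
`∑_{u, p} vv a M t (P u) p * ∏ i, (XF δ (fun β => yw (h i) β.1) (t i) (p i) * ev (t i) (y i (u i)))`, a relation over `V` between the
products of the numbers `XF δ (fun p => yw (h i) p.1.1 * y i p.2) (t i)` (index `((β_i, u_i), e_i)`; the values of products are
products for `t_i` larger than the constants in the bounds). If all coefficients `vv a M t (P u)` are `0`, then
`P u ∈ relI δ h t` for all `u` by `univ_mem`. -/
def S_LT : Prop := ∀ (k δ D : ℕ) (r : Fin k → ℕ) (h : ∀ i, Fin (r i) → ℚ⟦X⟧) (ω : Fin k → Type) [∀ i, Fintype (ω i)]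
  (y : ∀ i, ω i → ℚ⟦X⟧),
  (∀ i, ∃ C : ℝ, ∀ j m, |((coeff m (h i j) : ℚ) : ℝ)| ≤ C ^ (m + 1)) →
  (∀ i, ∃ C : ℝ, ∀ j m, |((coeff m (y i j) : ℚ) : ℝ)| ≤ C ^ (m + 1)) →
  (∀ i, ∃ (B : Finset (Fin δ → Option (Fin (r i)))) (a : Polynomial ℤ)
      (M : (Fin δ → Option (Fin (r i))) → B → Polynomial ℤ), a ≠ 0 ∧
      (∀ b, ps a * yw (h i) b = ∑ β, ps (M b β) * yw (h i) β.1) ∧
      One (XF δ fun p : B × ω i => yw (h i) p.1.1 * y i p.2)) →
    ∃ c C : ℝ, 0 < c ∧ 0 ≤ C ∧ ∀ (V : Submodule ℚ ℂ) [Module.Finite ℚ V], Module.finrank ℚ V ≤ D →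
      ∀ (x : Fin k → ℕ) (N : ℕ), 1 ≤ N → ∀ S : Finset (Fin k → ℕ),
      (∀ t ∈ S, (∀ i, x i < t i ∧ t i ≤ x i + N) ∧
        ∃ P : (∀ i, ω i) → MvPolynomial (Σ i, Option (Fin (r i))) ℂ, (∀ u, (P u).totalDegree ≤ δ) ∧
        (∀ u s, (P u).coeff s ∈ V) ∧
        ∑ u, MvPolynomial.aeval (valpt h t) (P u) * ∏ i, ((Pool.Agent.Y113.ev (t i : ℝ) (y i (u i)) : ℝ) : ℂ) = 0 ∧
        ∃ u, P u ∉ relI δ h t) →
      (S.card : ℝ) ≤ C * (N : ℝ) ^ (k - 1) * ∑ i, (1 + N / ((x i : ℝ) + N) ^ c)

end Pool.Agent.Run7.h225.HP
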