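import Pool.Agent.Run7.h225.HP.FIN2
import Pool.Agent.Run7.h160.HP.PLS
import Pool.Agent.Run7.h160.HP.ONE
import Pool.Agent.Run7.h704.HP.IND
import Pool.Agent.Run7.h824.HP.LT
import Pool.Agent.Run7.h824.HP.NL

/-!
# The pieces of the first part; the logarithm of `1 - z` is not a rational function
-/

set_option autoImplicit false

open PowerSeries Matrix
open Pool.Agent.Y113 hiding Bm
open Pool.Agent.Y120.GF Pool.Agent.Y120.GH Pool.Agent.Y119.HZ
open Pool.Agent.Y119.HY (Am Jm Bm Hq cm E Hf Hc Yf Vr Rel Gal Sol PG Lens E_mul_neg)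
open Pool.Agent.Run7.h225.HG
open Run7.h893.HO

namespace Pool.Agent.Run7.h225.HP

/-- `log (1 - z)` is not a rational function -/
theorem nolog_zero (h : Fin 0 → ℚ⟦X⟧) : NoLog h := by
  have hJ : JU (fun j : Fin 0 => j.elim0) (fun j : Fin 0 => j.elim0) (fun j => j.elim0) :=
    { q := fun j => j.elim0, q' := fun j => j.elim0, typ := fun j => j.elim0, sys := fun j => j.elim0,
      ne := fun i => i.elim0, sd := fun j => j.elim0, sd2 := fun j => j.elim0, no23 := fun i => i.elim0 }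
  have h1 := Pool.Agent.Run7.h824.HP.nl _ _ _ _ _ (p_BLK 0 _ _ _ _ _ hJ.sys).1 (nolog_joint hJ)
  have h2 : h = hfg (blk (fun j : Fin 0 => j.elim0) ℚ⟦X⟧ fun j => Hp _ ((fun j : Fin 0 => j.elim0) j)) := by
    funext i
    exact i.elim0
  rw [h2]
  exact h1

end Pool.Agent.Run7.h225.HP
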