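import Pool.Agent.Run7.h225.HP.JPP
import Pool.Agent.Run7.h930.HP.SHUF
import Pool.Agent.Run7.h930.HP.LINZ
import Pool.Agent.Run7.h930.HP.LIN
import Pool.Agent.Run7.h586.HP.WORD
import Pool.Agent.Run7.h586.HP.PLW
import Pool.Agent.Run7.h882.HQ.JV

/-!
# The pieces of the second part
-/

set_option autoImplicit false

namespace Pool.Agent.Run7.h225.HP

theorem pp : PP where
  shuf := Pool.Agent.Run7.h930.HP.p_SHUF
  linz := Pool.Agent.Run7.h930.HP.p_LINZ
  word := Pool.Agent.Run7.h586.HP.p_WORD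
  lin := Pool.Agent.Run7.h930.HP.p_LIN
  val := Pool.Agent.Run7.h882.HQ.p_VAL
  plw := Pool.Agent.Run7.h586.HP.p_PLW
  jvv := Pool.Agent.Run7.h882.HQ.p_JVV
  jvi := Pool.Agent.Run7.h882.HQ.p_JVI
  nl0 := nolog_zero

end Pool.Agent.Run7.h225.HP
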