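import Pool.Agent.Run7.h225.HP.Iface
import Pool.Agent.Run7.h225.HG.JFIN

/-!
# The theorem on tuples for multiple polylogarithms and general systems
-/

set_option autoImplicit false

open PowerSeries Matrix
open Pool.Agent.Y113 hiding Bm
open Pool.Agent.Y120.GF Pool.Agent.Y120.GH Pool.Agent.Y119.HZ
open Pool.Agent.Y119.HY (Am Jm Bm Hq cm E Hf Hc Yf Vr Rel Gal Sol PG Lens E_mul_neg)
open Pool.Agent.Run7.h225.HG

namespace Pool.Agent.Run7.h225.HP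

/-- the multiple polylogarithms are G-functions -/
theorem sdc_li (hPLS : S_PLS) (W : ℕ) (s : Idx W) : SDc (li s.1) := by
  obtain ⟨m, N, B, H, V, hS, h⟩ := hPLS W
  obtain ⟨a, b, hab⟩ := h s
  rw [← hab]
  exact hS.sH a b

open SYS2 in
/-- **Few exceptional tuples**, general systems. -/
theorem sys2_poly (hPLS : S_PLS) (hIND : S_IND) (hONE : S_ONE) (hLT : S_LT) (k δ D W : ℕ) (n : Fin k → ℕ)
    (N B : ∀ i, Matrix (Fin (n i)) (Fin (n i)) ℚ)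
    (H V' : ∀ i, Matrix (Fin (n i)) (Fin (n i)) ℚ⟦X⟧) (T : ∀ i, ℂ → Set (Matrix (Fin (n i)) (Fin (n i)) ℂ))
    (hS : ∀ i, Sys (n i) (N i) (B i) (H i) (V' i)) (hNL : ∀ i, NoLog (hfg (H i)))
    (hT : ∀ i, ∀ x : ℝ, 0 < x → x < 1 → ∀ X ∈ T i x, ∀ c : ℂ, ∃ g ∈ Gal (Yf (cm (N i)) (Hcg (H i))),
      Yf (cm (N i)) (Hcg (H i)) x * g = X * E (cm (N i)) c) :
    ∃ c C : ℝ, 0 < c ∧ 0 ≤ C ∧ ∀ (V : Submodule ℚ ℂ) [Module.Finite ℚ V], Module.finrank ℚ V ≤ D →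
      ∀ Ω : (∀ i, Matrix (Fin (n i)) (Fin (n i)) ℂ), ∀ (x : Fin k → ℕ) (N' : ℕ), (∀ i, 1 ≤ x i) → 1 ≤ N' →
      ∀ S : Finset (Fin k → ℕ), (∀ t ∈ S, (∀ i, x i < t i ∧ t i ≤ x i + N') ∧
        ∃ P : (Fin k → Idx W) → MvPolynomial (Jx n) ℂ, (∀ u, (P u).totalDegree ≤ δ) ∧ (∀ u s, (P u).coeff s ∈ V) ∧
        ∑ u, MvPolynomial.aeval (pw (fun i => ((Real.log (t i) : ℝ) : ℂ)) fun i => Ytg (N i) (H i) (t i) * Ω i) (P u) *
          ∏ i, ((ev (t i : ℝ) (li (u i).1) : ℝ) : ℂ) = 0 ∧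
        ∃ (u : Fin k → Idx W) (l : Fin k → ℂ) (g : ∀ i, Matrix (Fin (n i)) (Fin (n i)) ℂ),
          (∀ i, g i ∈ T i (((1 / (t i : ℝ) : ℝ)) : ℂ)) ∧
          MvPolynomial.aeval (pw l fun i => g i * Ω i) (P u) ≠ 0) →
      (S.card : ℝ) ≤ C * (N' : ℝ) ^ (k - 1) * ∑ i, (1 + N' / ((x i : ℝ) + N') ^ c) := by
  classical
  obtain ⟨c, C, hc, hC, hmain⟩ := hLT k (δ * dg n) ((Fintype.card (Option (Ix n))) ^ δ * D) (fun i => n i * n i)
    (fun i => hfg (H i)) (fun _ => Idx W) (fun _ s => li s.1) (fun i => by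
      obtain ⟨C₁, -, hs, -⟩ := Pool.Agent.Y119.HY.SDc.unif
        (y := fun p : Fin (n i) × Fin (n i) => H i p.1 p.2) fun p => (hS i).sH p.1 p.2
      exact ⟨C₁, fun j m => hs (ix (n i) j) m⟩) (fun i => by
      obtain ⟨C₁, -, hs, -⟩ := Pool.Agent.Y119.HY.SDc.unif (y := fun s : Idx W => li s.1) fun s => sdc_li hPLS W s
      exact ⟨C₁, hs⟩) (fun i => hONE hPLS hIND (n i) (N i) (B i) (H i) (V' i) (hS i) (hNL i) _ W)
  refine ⟨c, C, hc, hC, ?_⟩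
  intro V _ hV Ω x N' hx hN' S hSS
  obtain ⟨hfin, hrank⟩ := Vn_fin Ω V δ
  refine hmain (Vn Ω V δ) (hrank.trans (Nat.mul_le_mul_left _ hV)) x N' hN' S fun t htS => ?_
  obtain ⟨hbox, P, hPd, hPV, hP0, u, l, g, hg, hPg⟩ := hSS t htS
  refine ⟨hbox, fun u => MvPolynomial.aeval (subg' N Ω) (P u), fun u => (aeval_MVg' N Ω (hPd u) (hPV u)).2,
    fun u => (aeval_MVg' N Ω (hPd u) (hPV u)).1, ?_, u, ?_⟩
  · -- the value
    have h1 : valpt (fun i => hfg (H i)) t =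
        pt (fun i j => Hf (Hcg (H i)) (((1 / (t i : ℝ) : ℝ)) : ℂ) (ix (n i) j).1 (ix (n i) j).2)
          (fun i => ((Real.log (t i) : ℝ) : ℂ)) := by
      unfold valpt
      congr 1
      funext i j
      exact ev_H _ _ _
    have h2 : ∀ u, MvPolynomial.aeval (valpt (fun i => hfg (H i)) t) (MvPolynomial.aeval (subg' N Ω) (P u)) =
        MvPolynomial.aeval (fun v => MvPolynomial.aeval (valpt (fun i => hfg (H i)) t) (subg' N Ω v)) (P u) :=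
      fun u => MvPolynomial.aeval_bind₁ _ _ _
    simp only [h2]
    rw [h1]
    have h3 := fun v => aeval_subg' N Ω (fun i => Hf (Hcg (H i)) (((1 / (t i : ℝ) : ℝ)) : ℂ))
      (fun i => ((Real.log (t i) : ℝ) : ℂ)) v
    simp only [h3]
    exact hP0
  · intro hmem
    apply hPg
    have ht2 : ∀ i, 2 ≤ t i := fun i => by
      have := (hbox i).1
      have := hx i
      omega
    have hN : ∀ i, (cm (N i)) ^ n i = 0 := fun i => cm_nil (hS i)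
    set Z : ∀ i, Matrix (Fin (n i)) (Fin (n i)) ℂ := fun i => g i * E (cm (N i)) (l i) with hZd
    have hZ : ∀ i, ∃ γ ∈ Gal (Yf (cm (N i)) (Hcg (H i))),
        Yf (cm (N i)) (Hcg (H i)) (((1 / (t i : ℝ) : ℝ)) : ℂ) * γ *
          E (cm (N i)) (-Complex.log (((1 / (t i : ℝ) : ℝ)) : ℂ)) = Z i := by
      intro i
      have h3 : (2 : ℝ) ≤ t i := by exact_mod_cast ht2 i
      obtain ⟨γ, hγ, hγe⟩ := hT i (1 / (t i : ℝ)) (by positivity) (by rw [div_lt_one (by linarith)]; linarith)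
        (g i) (hg i) (l i + Complex.log (((1 / (t i : ℝ) : ℝ)) : ℂ))
      refine ⟨γ, hγ, ?_⟩
      rw [hγe, Matrix.mul_assoc, ← Pool.Agent.Y119.HY.E_add (hN i), hZd]
      congr 2
      ring
    have h1 := relI_vanish_s hS ht2 hZ l hmem
    have h2 : MvPolynomial.aeval (pt (fun i j => Z i (ix (n i) j).1 (ix (n i) j).2) l) (MvPolynomial.aeval (subg' N Ω) (P u)) =
        MvPolynomial.aeval (fun v => MvPolynomial.aeval (pt (fun i j => Z i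
          (ix (n i) j).1 (ix (n i) j).2) l) (subg' N Ω v)) (P u) := MvPolynomial.aeval_bind₁ _ _ _
    rw [h2] at h1
    have h3 := fun v => aeval_subg' N Ω Z l v
    simp only [h3] at h1
    have h4 : (fun i => Z i * E (cm (N i)) (-l i) * Ω i) = fun i => g i * Ω i := by
      funext i
      have e1 : E (cm (N i)) (l i) * E (cm (N i)) (-l i) = 1 := E_mul_neg (hN i) (l i)
      rw [hZd]
      simp only
      rw [Matrix.mul_assoc (g i), e1, mul_one]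
    rw [h4] at h1
    exact h1

open JFINp in
/-- **Few exceptional tuples**, several systems at the same fibres. -/
theorem jfin_poly (hPLS : S_PLS) (hIND : S_IND) (hONE : S_ONE) (hLT : S_LT) (k δ D W : ℕ) (r : Fin k → ℕ)
    (n : ∀ i, Fin (r i) → ℕ)
    (N B : ∀ i j, Matrix (Fin (n i j)) (Fin (n i j)) ℚ) (H V' : ∀ i j, Matrix (Fin (n i j)) (Fin (n i j)) ℚ⟦X⟧)
    (T : ∀ i, ℂ → Set (∀ j, Matrix (Fin (n i j)) (Fin (n i j)) ℂ))
    (hS : ∀ i j, Sys (n i j) (N i j) (B i j) (H i j) (V' i j))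
    (hNL : ∀ i, NoLog (hfg (blk (n i) ℚ⟦X⟧ (H i))))
    (hT : ∀ i, ∀ x : ℝ, 0 < x → x < 1 → ∀ X ∈ T i x, ∀ c : ℂ, ∃ g : ∀ j, Matrix (Fin (n i j)) (Fin (n i j)) ℂ,
      blk (n i) ℂ g ∈ Gal (Yf (cm (blk (n i) ℚ (N i))) (Hcg (blk (n i) ℚ⟦X⟧ (H i)))) ∧
      ∀ j, Yf (cm (N i j)) (Hcg (H i j)) x * g j = X j * E (cm (N i j)) c) :
    ∃ c C : ℝ, 0 < c ∧ 0 ≤ C ∧ ∀ (V : Submodule ℚ ℂ) [Module.Finite ℚ V], Module.finrank ℚ V ≤ D →
      ∀ Ω : (∀ i j, Matrix (Fin (n i j)) (Fin (n i j)) ℂ), ∀ (x : Fin k → ℕ) (N' : ℕ), (∀ i, 1 ≤ x i) → 1 ≤ N' →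
      ∀ S : Finset (Fin k → ℕ), (∀ t ∈ S, (∀ i, x i < t i ∧ t i ≤ x i + N') ∧
        ∃ P : (Fin k → Idx W) → MvPolynomial (Σ i : Fin k, Option (Σ j : Fin (r i), Fin (n i j) × Fin (n i j))) ℂ,
        (∀ u, (P u).totalDegree ≤ δ) ∧ (∀ u s, (P u).coeff s ∈ V) ∧
        ∑ u, MvPolynomial.aeval (pj (fun i => ((Real.log (t i) : ℝ) : ℂ)) fun i j => Ytg (N i j) (H i j) (t i) * Ω i j) (P u) *
          ∏ i, ((ev (t i : ℝ) (li (u i).1) : ℝ) : ℂ) = 0 ∧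
        ∃ (u : Fin k → Idx W) (l : Fin k → ℂ) (g : ∀ i j, Matrix (Fin (n i j)) (Fin (n i j)) ℂ),
          (∀ i, g i ∈ T i (((1 / (t i : ℝ) : ℝ)) : ℂ)) ∧
          MvPolynomial.aeval (pj l fun i j => g i j * Ω i j) (P u) ≠ 0) →
      (S.card : ℝ) ≤ C * (N' : ℝ) ^ (k - 1) * ∑ i, (1 + N' / ((x i : ℝ) + N') ^ c) := by
  have hB := fun i => p_BLK (r i) (n i) (N i) (B i) (H i) (V' i) (hS i)
  obtain ⟨c, C, hc, hC, hmain⟩ := sys2_poly hPLS hIND hONE hLT k δ D W (fun i => ∑ j, n i j) (fun i => blk (n i) ℚ (N i))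
    (fun i => blk (n i) ℚ (B i)) (fun i => blk (n i) ℚ⟦X⟧ (H i)) (fun i => blk (n i) ℚ⟦X⟧ (V' i))
    (fun i z => (fun X => blk (n i) ℂ X) '' T i z) (fun i => (hB i).1) hNL (by
      rintro i x hx hx1 _ ⟨X, hX, rfl⟩ c
      obtain ⟨g, hg, hg'⟩ := hT i x hx hx1 X hX c
      refine ⟨blk (n i) ℂ g, hg, ?_⟩
      rw [(hB i).2.1, (hB i).2.2.1]
      show _ = blk (n i) ℂ X * _
      rw [← map_mul, ← map_mul]
      congr 1
      funext j
      exact hg' j)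
  refine ⟨c, C, hc, hC, ?_⟩
  intro V _ hV Ω x N' hx hN' S hSt
  refine hmain V hV (fun i => blk (n i) ℂ (Ω i)) x N' hx hN' S ?_
  intro t ht
  obtain ⟨ht1, P, hP1, hP2, hP3, u, l, g, hg, hne⟩ := hSt t ht
  refine ⟨ht1, fun u => MvPolynomial.rename rhoJ (P u), fun u => (MvPolynomial.totalDegree_rename_le _ _).trans (hP1 u),
    fun u => coeff_rhoJ V (P u) (hP2 u), ?_, u, l, fun i => blk (n i) ℂ (g i), fun i => ⟨g i, hg i, rfl⟩, ?_⟩
  · simp only [MvPolynomial.aeval_rename]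
    have e1 : (fun i => Ytg (blk (n i) ℚ (N i)) (blk (n i) ℚ⟦X⟧ (H i)) (t i) * blk (n i) ℂ (Ω i)) =
        fun i => blk (n i) ℂ fun j => Ytg (N i j) (H i j) (t i) * Ω i j := by
      funext i
      rw [(hB i).2.2.2.1, ← map_mul]
      rfl
    rw [e1, pw_rhoJ]
    exact hP3
  · rw [MvPolynomial.aeval_rename]
    have e1 : (fun i => blk (n i) ℂ (g i) * blk (n i) ℂ (Ω i)) =
        fun i => blk (n i) ℂ fun j => g i j * Ω i j := by
      funext i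
      rw [← map_mul]
      rfl
    rw [e1, pw_rhoJ]
    exact hne

end Pool.Agent.Run7.h225.HP
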