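import Pool.Agent.Run7.h225.HP.LOG3

/-!
# The logarithm of `1 - z` is not in the field generated by the solutions: end of the proof
-/

set_option autoImplicit false

open PowerSeries Matrix
open Pool.Agent.Y113 hiding Bm ev
open Pool.Agent.Y120.GF Pool.Agent.Y120.GH Pool.Agent.Y119.HZ
open Pool.Agent.Y119.HY (Am Bm Hc cm E Hf Yf Vr Rel Gal Sol PG Lens uc real_mem_Lens Ac_nil pt ev)
open Pool.Agent.Run7.h225.HG
open Run7.h893.HO hiding qp qp_eval

namespace Pool.Agent.Run7.h225.HP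

variable {r : ℕ} {n : Fin r → ℕ} {Q : Fin r → Polynomial ℚ} {W : ∀ j, Matrix (Fin (n j)) (Fin (n j)) ℚ⟦X⟧}

/-- the coordinates of the old blocks -/
def up (n : Fin r → ℕ) (j : Fin r) (i : Fin (n j)) : Fin (nU n j.succ) := i

/-- the coordinates of the new block -/
def uz (n : Fin r → ℕ) (i : Fin 2) : Fin (nU n 0) := i

/-- the old blocks -/
def dn (X : ∀ j, Matrix (Fin (nU n j)) (Fin (nU n j)) ℂ) : ∀ j, Matrix (Fin (n j)) (Fin (n j)) ℂ :=
  fun j i k => X j.succ (up n j i) (up n j k)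

/-- the new block -/
def dz (X : ∀ j, Matrix (Fin (nU n j)) (Fin (nU n j)) ℂ) : Matrix (Fin 2) (Fin 2) ℂ :=
  fun i k => X 0 (uz n i) (uz n k)

/-- the index of the coordinate `a` in the larger matrix -/
def io1 (n : Fin r → ℕ) (a : Fin (∑ j, n j)) : Fin (∑ j, nU n j) :=
  finSigmaFinEquiv (n := nU n) ⟨(finSigmaFinEquiv.symm a).1.succ, up n _ (finSigmaFinEquiv.symm a).2⟩

lemma blk_io1 (X : ∀ j, Matrix (Fin (nU n j)) (Fin (nU n j)) ℂ) (a b : Fin (∑ j, n j)) :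
    blk (nU n) ℂ X (io1 n a) (io1 n b) = blk n ℂ (dn X) a b := by
  unfold io1
  rw [BLK.blk_apply, BLK.blk_apply, Equiv.symm_apply_apply, Equiv.symm_apply_apply]
  rcases finSigmaFinEquiv.symm a with ⟨j, i⟩
  rcases finSigmaFinEquiv.symm b with ⟨j', k⟩
  by_cases h : j = j'
  · subst h
    rw [Matrix.blockDiagonal'_apply_eq, Matrix.blockDiagonal'_apply_eq]
    rfl
  · rw [Matrix.blockDiagonal'_apply_ne _ _ _ h, Matrix.blockDiagonal'_apply_ne]
    exact fun h' => h (Fin.succ_injective _ h')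

/-- the coordinates of the logarithm -/
def iz (n : Fin r → ℕ) (i : Fin 2) : Fin (∑ j, nU n j) := finSigmaFinEquiv (n := nU n) ⟨0, uz n i⟩

lemma blk_iz (X : ∀ j, Matrix (Fin (nU n j)) (Fin (nU n j)) ℂ) (i k : Fin 2) :
    blk (nU n) ℂ X (iz n i) (iz n k) = dz X i k := by
  unfold iz
  rw [BLK.blk_apply, Equiv.symm_apply_apply, Equiv.symm_apply_apply, Matrix.blockDiagonal'_apply_eq]
  rfl

/-- the variables -/
def iv (n : Fin r → ℕ) : Vr (∑ j, n j) → Vr (∑ j, nU n j)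
  | none => none
  | some none => some none
  | some (some p) => some (some (io1 n p.1, io1 n p.2))

lemma pt_iv (z l : ℂ) (X : ∀ j, Matrix (Fin (nU n j)) (Fin (nU n j)) ℂ) :
    pt z l (blk (nU n) ℂ X) ∘ iv n = pt z l (blk n ℂ (dn X)) := by
  funext o
  rcases o with _ | _ | p
  · rfl
  · rfl
  · exact blk_io1 X p.1 p.2

lemma ev_iv (P : MvPolynomial (Vr (∑ j, n j)) ℂ) (z l : ℂ) (X : ∀ j, Matrix (Fin (nU n j)) (Fin (nU n j)) ℂ) :
    ev (MvPolynomial.rename (iv n) P) z l (blk (nU n) ℂ X) = ev P z l (blk n ℂ (dn X)) := by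
  unfold ev
  rw [MvPolynomial.eval_rename, pt_iv]

lemma Yb_succ (hJ : JU n Q W) (z : ℂ) : blk n ℂ (dn (Yb n Q z)) = YJ n Q z :=
  ((p_BLK r n (fun j => Am (n j)) (fun j => Bm (n j) (Q j)) (fun j => Hp (n j) (Q j)) W hJ.sys).2.1 z).symm

lemma Yb_zero {x : ℝ} (hx : 0 < x) (hx1 : x < 1) : dz (Yb n Q x) = 1 + (-Complex.log (1 - x)) • vecMulVec e0 e1 :=
  Yf_U hx hx1

lemma dn_mul (X : ∀ j, Matrix (Fin (nU n j)) (Fin (nU n j)) ℂ) (s : ℂ) : dn (X * gU n s) = dn X := by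
  funext j
  show dn X j * 1 = dn X j
  rw [mul_one]

lemma dz_mul (X : ∀ j, Matrix (Fin (nU n j)) (Fin (nU n j)) ℂ) (s : ℂ) :
    dz (X * gU n s) = dz X * (1 + s • vecMulVec e0 e1) := rfl

lemma log_shift (l s : ℂ) : (1 + l • vecMulVec e0 e1) * (1 + s • vecMulVec e0 e1) = 1 + (l + s) • vecMulVec e0 e1 := by
  rw [add_mul, one_mul, mul_add, mul_one, smul_mul_smul_comm, vecMulVec_mul_vecMulVec, e1_e0, zero_smul,
    vecMulVec_zero, smul_zero, add_zero, add_smul]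
  abel

lemma entry (l : ℂ) : (1 + l • vecMulVec e0 e1) 0 1 = l := by
  simp [e0, e1]

/-- **the logarithm of `1 - z` is not in the field generated by the solutions** -/
theorem nolog_joint (hJ : JU n Q W) : NoLogY (YJ n Q) := by
  intro P R h
  set F : MvPolynomial (Vr (∑ j, nU n j)) ℂ :=
    MvPolynomial.rename (iv n) P * (-MvPolynomial.X (some (some (iz n 0, iz n 1)))) - MvPolynomial.rename (iv n) R with hF
  have hFe : ∀ (z l : ℂ) (X : ∀ j, Matrix (Fin (nU n j)) (Fin (nU n j)) ℂ), ev F z l (blk (nU n) ℂ X) =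
      ev P z l (blk n ℂ (dn X)) * (-(dz X 0 1)) - ev R z l (blk n ℂ (dn X)) := by
    intro z l X
    rw [← ev_iv P, ← ev_iv R, hF]
    unfold ev
    rw [map_sub, map_mul, map_neg, MvPolynomial.eval_X]
    show _ * -(blk (nU n) ℂ X (iz n 0) (iz n 1)) - _ = _
    rw [blk_iz]
  have hFR : F ∈ Rel (YU n Q) := by
    intro x hx hx1
    rw [YU_eq hJ, hFe, Yb_zero hx hx1, Yb_succ hJ, entry, neg_neg]
    exact sub_eq_zero.2 (h x hx hx1)
  intro x hx hx1
  have h1 := galU hJ 1 F hFR x hx hx1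
  rw [YU_eq hJ, ← map_mul, hFe, dn_mul, dz_mul, Yb_zero hx hx1, log_shift, entry, Yb_succ hJ] at h1
  have h2 := h x hx hx1
  rw [Pool.Agent.Y119.HY.ev] at *
  linear_combination h2 - h1

end Pool.Agent.Run7.h225.HP
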