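import Pool.Agent.Run7.h225.HP.FIN
import Pool.Agent.Run7.h225.HP.LOG4

/-!
# The theorem on tuples for multiple polylogarithms and hypergeometric families
-/

set_option autoImplicit false

open PowerSeries Matrix
open Pool.Agent.Y113 hiding Bm
open Pool.Agent.Y120.GF Pool.Agent.Y120.GH Pool.Agent.Y119.HZ
open Pool.Agent.Y119.HY (Am Jm Bm Hq cm E Hf Hc Yf Vr Rel Gal Sol PG Lens E_mul_neg)
open Pool.Agent.Run7.h225.HG
open Run7.h893.HO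

namespace Pool.Agent.Run7.h225.HP

/-- the pieces -/
theorem tuples_poly (hPLS : S_PLS) (hIND : S_IND) (hNL : S_NL) (hONE : S_ONE) (hLT : S_LT) (k δ D W : ℕ)
    (r : Fin k → ℕ) (n : ∀ i, Fin (r i) → ℕ) (Q : ∀ i, Fin (r i) → Polynomial ℚ)
    (V' : ∀ i j, Matrix (Fin (n i j)) (Fin (n i j)) ℚ⟦X⟧) (hJ : ∀ i, JU (n i) (Q i) (V' i)) :
    ∃ c C : ℝ, 0 < c ∧ 0 ≤ C ∧ ∀ (V : Submodule ℚ ℂ) [Module.Finite ℚ V], Module.finrank ℚ V ≤ D →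
      ∀ Ω : (∀ i j, Matrix (Fin (n i j)) (Fin (n i j)) ℂ), ∀ (x : Fin k → ℕ) (N' : ℕ), (∀ i, 1 ≤ x i) → 1 ≤ N' →
      ∀ S : Finset (Fin k → ℕ), (∀ t ∈ S, (∀ i, x i < t i ∧ t i ≤ x i + N') ∧
        ∃ P : (Fin k → Idx W) → MvPolynomial (Σ i : Fin k, Option (Σ j : Fin (r i), Fin (n i j) × Fin (n i j))) ℂ,
        (∀ u, (P u).totalDegree ≤ δ) ∧ (∀ u s, (P u).coeff s ∈ V) ∧
        ∑ u, MvPolynomial.aeval (pj (fun i => ((Real.log (t i) : ℝ) : ℂ)) fun i j => Yt (n i j) (Q i j) (t i) * Ω i j) (P u) *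
          ∏ i, ((ev (t i : ℝ) (li (u i).1) : ℝ) : ℂ) = 0 ∧
        ∃ (u : Fin k → Idx W) (l : Fin k → ℂ) (g : ∀ i j, Matrix (Fin (n i j)) (Fin (n i j)) ℂ),
          (∀ i, ∃ L : ℂ, Complex.exp L = 1 - (((1 / (t i : ℝ) : ℝ)) : ℂ) ∧
            ∀ j, g i j ∈ TU (n i j) (Q i j) L (((1 / (t i : ℝ) : ℝ)) : ℂ)) ∧
          MvPolynomial.aeval (pj l fun i j => g i j * Ω i j) (P u) ≠ 0) →
      (S.card : ℝ) ≤ C * (N' : ℝ) ^ (k - 1) * ∑ i, (1 + N' / ((x i : ℝ) + N') ^ c) := by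
  have h := jfin_poly hPLS hIND hONE hLT k δ D W r n (fun i j => Am (n i j)) (fun i j => Bm (n i j) (Q i j))
    (fun i j => Hp (n i j) (Q i j)) V'
    (fun i z => {X | ∃ L : ℂ, Complex.exp L = 1 - z ∧ ∀ j, X j ∈ TU (n i j) (Q i j) L z})
    (fun i j => (hJ i).sys j)
    (fun i => hNL _ _ _ _ _ (p_BLK (r i) (n i) (fun j => Am (n i j)) (fun j => Bm (n i j) (Q i j))
      (fun j => Hp (n i j) (Q i j)) (V' i) (hJ i).sys).1 (nolog_joint (hJ i)))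
    (fun i x hx hx1 X hX c => by
      obtain ⟨L, hL, hX⟩ := hX
      obtain ⟨g, hg, hg'⟩ := tor_all2 pieces (hJ i) hx hx1 hL hX c
      refine ⟨g, hg, fun j => ?_⟩
      rw [Hcg_Hp]
      exact hg' j)
  have hY : ∀ (i : Fin k) (j : Fin (r i)) (t : ℕ), Ytg (Am (n i j)) (Hp (n i j) (Q i j)) t = Yt (n i j) (Q i j) t := by
    intro i j t
    unfold Ytg Yt
    rw [Hcg_Hp]
  simp only [hY] at h
  exact h

end Pool.Agent.Run7.h225.HP
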