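import Pool.Agent.Run7.h225.HP.Iface
import Pool.Agent.Run7.h225.HG.Iface5

/-!
# Interface of the project HPL, second part: algebraic fibres, the torsor of the multiple polylogarithms

Words in two letters: `false` is `dz / z`, `true` is `dz / (1 - z)`. The polylogarithms of the words which do not end with
`false` span an algebra, the product is the shuffle product. The torsor of the polylogarithms is the set of the characters of
the shuffle algebra.
-/

set_option autoImplicit false

open PowerSeries Matrix
open Pool.Agent.Y113 hiding Bm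
open Pool.Agent.Y120.GF Pool.Agent.Y120.GH Pool.Agent.Y119.HZ
open Pool.Agent.Y119.HY (cm E Hf Yf Vr Rel Gal Sol)
open Pool.Agent.Y118.UL (Irr)
open Pool.Agent.Run7.h225.HG

namespace Pool.Agent.Run7.h225.HP

/-- the coefficients of the polylogarithm of a word -/
def cw : List Bool → ℕ → ℚ
  | [], k => if k = 0 then 1 else 0
  | false :: w, k => cw w k / k
  | true :: w, k => (∑ j ∈ Finset.range k, cw w j) / k

/-- the polylogarithm of a word -/
def lw (w : List Bool) : ℚ⟦X⟧ := PowerSeries.mk (cw w)

/-- the words which do not end with `false` -/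
def Adm (w : List Bool) : Prop := w.getLast? ≠ some false

/-- the words of length at most `W` which do not end with `false` -/
abbrev Wd (W : ℕ) : Type := {w : List Bool // w.length ≤ W ∧ Adm w}

theorem Wd_finite (W : ℕ) : Finite (Wd W) :=
  ((List.finite_length_le Bool W).subset fun _ h => h.1).to_subtype

noncomputable instance (W : ℕ) : Fintype (Wd W) := @Fintype.ofFinite _ (Wd_finite W)

/-- the shuffle product of two words, the list of its terms -/
def sh : List Bool → List Bool → List (List Bool)
  | [], v => [v]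
  | a :: u, [] => [a :: u]
  | a :: u, b :: v => (sh u (b :: v)).map (a :: ·) ++ (sh (a :: u) v).map (b :: ·)

lemma sh_nil (u : List Bool) : sh u [] = [u] := by
  cases u <;> rw [sh]

lemma Adm_cons {a : Bool} {w : List Bool} (h : Adm (a :: w)) : Adm w := by
  unfold Adm at h ⊢
  rcases w with _ | ⟨b, w⟩
  · simp
  · rwa [List.getLast?_cons_cons] at h

lemma Adm_of_ne {a : Bool} {w : List Bool} (h : Adm w) (hw : w ≠ []) : Adm (a :: w) := by
  unfold Adm at h ⊢
  rcases w with _ | ⟨b, w⟩
  · exact absurd rfl hw
  · rwa [List.getLast?_cons_cons]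

lemma sh_length {u v w : List Bool} (h : w ∈ sh u v) : w.length = u.length + v.length := by
  induction u generalizing v w with
  | nil =>
    rw [sh, List.mem_singleton] at h
    subst h
    simp
  | cons a u ihu =>
    induction v generalizing w with
    | nil =>
      rw [sh, List.mem_singleton] at h
      subst h
      simp
    | cons b v ihv =>
      rw [sh, List.mem_append, List.mem_map, List.mem_map] at h
      rcases h with ⟨w', h, rfl⟩ | ⟨w', h, rfl⟩
      · have := ihu h
        simp only [List.length_cons] at this ⊢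
        omega
      · have := ihv h
        simp only [List.length_cons] at this ⊢
        omega

lemma sh_adm {u v w : List Bool} (hu : Adm u) (hv : Adm v) (h : w ∈ sh u v) : Adm w := by
  induction u generalizing v w with
  | nil =>
    rw [sh, List.mem_singleton] at h
    subst h
    exact hv
  | cons a u ihu =>
    induction v generalizing w with
    | nil =>
      rw [sh, List.mem_singleton] at h
      subst h
      exact hu
    | cons b v ihv =>
      rw [sh, List.mem_append, List.mem_map, List.mem_map] at h
      rcases h with ⟨w', h, rfl⟩ | ⟨w', h, rfl⟩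
      · refine Adm_of_ne (ihu (Adm_cons hu) hv h) ?_
        rintro rfl
        have := sh_length h
        simp at this
      · refine Adm_of_ne (ihv (Adm_cons hv) h) ?_
        rintro rfl
        have := sh_length h
        simp only [List.length_nil, List.length_cons] at this
        omega

/-- characters of the shuffle algebra (of the words which do not end with `false`) -/
structure Chr {R : Type} [CommRing R] (x : List Bool → R) : Prop where
  one : x [] = 1
  mul : ∀ u v, Adm u → Adm v → x u * x v = ((sh u v).map x).sum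

/-- the specialisation of the coefficients -/
noncomputable def eq0 (z : ℂ) : Polynomial ℚ →+* ℂ := (Polynomial.aeval z : Polynomial ℚ →ₐ[ℚ] ℂ).toRingHom

/-- the value of a power series with rational coefficients -/
noncomputable def vz (z : ℂ) (f : ℚ⟦X⟧) : ℂ := Pool.Agent.Y916.Al.evc z f

/-- **WORD.** Indices and words. `e s` is the word `0^(s_1 - 1) 1 ⋯ 0^(s_r - 1) 1` (`0 = false`, `1 = true`); the coefficients
agree by recursion. -/
def S_WORD : Prop := ∀ W : ℕ, ∃ e : Idx W ≃ Wd W, ∀ s, li s.1 = lw (e s).1

/-- **SHUF.** The shuffle relations.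

Proof. Induction on the sum of the lengths. `θ = z d/dz` satisfies `θ lw (0 u) = lw u` for admissible `0 u` (so `u ≠ []`, and
the constant coefficient of `lw u` is `0`) and `θ lw (1 u) = z / (1 - z) lw u` (compare `theta_cons_succ`, `theta_cons_one` in
`Run7/h704/HP/IND.lean`). So both sides of the relation for `a u`, `b v` have the derivative
`φ_a ∑_{w ∈ sh u (b v)} lw w + φ_b ∑_{w ∈ sh (a u) v} lw w`, `φ_0 = 1`, `φ_1 = z / (1 - z)`, and constant coefficient `0`. -/
def S_SHUF : Prop := Chr lw

/-- **VAL.** The values of the polylogarithms are a character.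

Proof. `|cw w k| ≤ 1` by induction, so the series converge absolutely, and the value of a product (of a sum) is the product (the
sum) of the values (`vz` is `∑' m, coeff m f * z ^ m`, see `Y916/Al`, `Cauchy product`). -/
def S_VAL : Prop := S_SHUF → (∀ w k, |cw w k| ≤ 1) ∧ ∀ z : ℂ, ‖z‖ < 1 → Chr fun w => vz z (lw w)

/-- **LINZ.** Polynomials in the values of characters are linear combinations.

Proof. Induction on `R`: constants and the variables of the first kind have `q` supported at `[]`, the variable `w` has
`q = single w 1`, sums: sums; products (`mul_X`, or products of two polynomials): `q = ∑_{u, v} ∑_{w ∈ sh u v} q₁ u q₂ v` at `w`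
(`sh_adm`). -/
def S_LINZ : Prop := ∀ (τ A : Type) [CommRing A] (W : ℕ) (R : MvPolynomial (τ ⊕ Wd W) A),
  ∃ q : List Bool →₀ MvPolynomial τ A, (∀ w ∈ q.support, Adm w) ∧
    ∀ (B : Type) [CommRing B] (f : A →+* B) (y : τ → B) (x : List Bool → B), Chr x →
      MvPolynomial.eval₂ f (Sum.elim y fun w => x w.1) R = q.sum fun w p => MvPolynomial.eval₂ f y p * x w

/-- **PLW.** All entries of the system of the polylogarithms are linear combinations of the `lw w`.

Proof. The system is the one in the proof of PLS (`Run7/h160/HP/PLS.lean`), its entries are `0` or `h_w` (`w` any word of length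
`≤ W`). By induction on the length `h_w` is a linear combination of the `lw w'` with `w'` admissible of the same length: `h_w =
In(R_w)`, and `In(lw w') = lw (0 w')` if `w' ≠ []` is admissible, `In(X * geo 1 * lw w') = lw (1 w')`; `h_[] = 1`, `h_0 = 0`,
`h_1 = lw [1]`. If `w` is admissible then `h_w = lw w`: it has no term `[w = u 0] h_u`; let `c = Pi.single w 1` there and
`e w = (w, [])`. -/
def S_PLW : Prop := ∀ W : ℕ, ∃ (m : ℕ) (N B : Matrix (Fin m) (Fin m) ℚ) (H V : Matrix (Fin m) (Fin m) ℚ⟦X⟧)
  (c : Fin m → Fin m → Wd W → ℚ) (e : Wd W → Fin m × Fin m), Sys m N B H V ∧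
  (∀ a b, H a b = ∑ w, PowerSeries.C (c a b w) * lw w.1) ∧ ∀ w, c (e w).1 (e w).2 = Pi.single w 1

/-- **LIN.** The polylogarithms are linearly independent over the ring of polynomials in `z` and the functions `h`.

Proof. `graded_indep` as in the proof of IND (`p_IND` in `Run7/h704/HP/IND.lean` proves that the `io (li s)` are linearly
independent over the field `Kh h`), and WORD. -/
def S_LIN : Prop := S_WORD → ∀ (N : ℕ) (h : Fin N → ℚ⟦X⟧) (T : Polynomial ℚ) (A : Fin N → Fin N → Polynomial ℚ), T ≠ 0 →
  (∀ i, (T : ℚ⟦X⟧) * d⁄dX ℚ (h i) = ∑ j, (A i j : ℚ⟦X⟧) * h j) → NoLog h →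
  ∀ q : List Bool →₀ MvPolynomial (Fin N) (Polynomial ℚ), (∀ w ∈ q.support, Adm w) →
  (q.sum fun w p => MvPolynomial.aeval h p * lw w) = 0 → ∀ w, MvPolynomial.aeval h (q w) = 0

/-- **JVV.** The joint relations vanish on the product of the torsors.

Proof. LINZ for `A = ℚ[z]`: with `B = ℚ⟦X⟧`, `x = lw` (SHUF) the relation is `∑_w aeval h (q w) * lw w = 0`, so
`aeval h (q w) = 0` by LIN, so `q w` vanishes on `T₀` at `z`; LINZ with `B = ℂ` and the character `x`. -/
def S_JVV : Prop := S_SHUF → S_LINZ → S_WORD → S_LIN → ∀ (N : ℕ) (h : Fin N → ℚ⟦X⟧) (T : Polynomial ℚ)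
  (A : Fin N → Fin N → Polynomial ℚ), T ≠ 0 →
  (∀ i, (T : ℚ⟦X⟧) * d⁄dX ℚ (h i) = ∑ j, (A i j : ℚ⟦X⟧) * h j) → NoLog h →
  ∀ (W : ℕ) (z : ℂ) (T₀ : Set (Fin N → ℂ)), (∀ y ∈ T₀, ∀ R : MvPolynomial (Fin N) (Polynomial ℚ),
    MvPolynomial.aeval h R = 0 → MvPolynomial.eval₂ (eq0 z) y R = 0) →
  ∀ y ∈ T₀, ∀ x : List Bool → ℂ, Chr x → ∀ R : MvPolynomial (Fin N ⊕ Wd W) (Polynomial ℚ),
    MvPolynomial.aeval (Sum.elim h fun w => lw w.1) R = 0 →
    MvPolynomial.eval₂ (eq0 z) (Sum.elim y fun w => x w.1) R = 0

/-- **JVI.** The product of an irreducible set and of the set of the characters is irreducible.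

Proof. `|cw w k| ≤ 1`, so the `lw w` converge for `|z| < 1` and `x w = vz z (lw w)` is a character (SHUF). The `lw w`,
`w` admissible, are linearly independent over `ℂ` (LIN for `N = 0`, with the hypothesis that `log (1 - z)` is not a rational
function, gives this over `ℚ`; expand complex coefficients in a basis over `ℚ`). Let `P` and `Q` not vanish
at `(y₁, x₁)`, `(y₂, x₂)`. LINZ for `A = ℂ`: `P = ∑_w P_w(y) x_w`, `Q = ∑_w Q_w(y) x_w`, so `P_u(y₁) ≠ 0`, `Q_v(y₂) ≠ 0` for some
`u, v`. As `T₀` is irreducible there is `y ∈ T₀` with `P_u(y) Q_v(y) ≠ 0`. The power series `∑_w P_w(y) lw w` and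
`∑_w Q_w(y) lw w` are not `0`, so for a small `z` (isolated zeros) both have values `≠ 0`, these are the values of `P`, `Q` at
`(y, (vz z (lw w))_w)`. -/
def S_JVI : Prop := S_SHUF → S_LINZ → S_WORD → S_LIN → (∀ h : Fin 0 → ℚ⟦X⟧, NoLog h) → ∀ (τ : Type) (W : ℕ) (T₀ : Set (τ → ℂ)), Irr T₀ →
  Irr {p : τ ⊕ Wd W → ℂ | (fun i => p (Sum.inl i)) ∈ T₀ ∧ ∃ x : List Bool → ℂ, Chr x ∧ ∀ w : Wd W, p (Sum.inr w) = x w.1}

end Pool.Agent.Run7.h225.HP
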