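import Pool.Agent.Run7.h225.HP.WINP
import Pool.Agent.Run7.h225.HP.ALL
import Pool.Agent.Run7.h225.HG.JD

/-!
# Polylogarithms and several hypergeometric families at algebraic points
-/

set_option autoImplicit false

open PowerSeries Matrix
open Pool.Agent.Y113 hiding Bm
open Pool.Agent.Y120.GF Pool.Agent.Y120.GH Pool.Agent.Y119.HZ
open Pool.Agent.Y119.HY (Am Jm Bm Hq cm E Hf Hc Yf Vr Rel Gal Sol PG Lens QD)
open Pool.Agent.Y916.Al (Ht)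
open Pool.Agent.Run7.h225.HG
open Run7.h893.HO

namespace Pool.Agent.Run7.h225.HP

variable {r : ℕ} {n : Fin r → ℕ} {Q : Fin r → Polynomial ℚ} {V' : ∀ j, Matrix (Fin (n j)) (Fin (n j)) ℚ⟦X⟧}

theorem nolog_blk (hJ : JU n Q V') : NoLog (hfg (blk n ℚ⟦X⟧ fun j => Hp (n j) (Q j))) :=
  Pool.Agent.Run7.h824.HP.nl _ _ _ _ _ (p_BLK r n _ _ _ V' hJ.sys).1 (nolog_joint hJ)

/-- the exceptional tuples -/
def ExcJP {r : ℕ} (n : Fin r → ℕ) (Q : Fin r → Polynomial ℚ) (δ d W : ℕ) (V : Submodule ℚ ℂ) {k : ℕ}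
    (Ω : Fin k → ∀ j, Matrix (Fin (n j)) (Fin (n j)) ℂ) (α : Fin k → ℂ) : Prop :=
  ∃ ℓ : Fin k → ℂ, (∀ i, Complex.exp (ℓ i) = α i) ∧
    ∃ L : IntermediateField ℚ ℂ, FiniteDimensional ℚ L ∧ Module.finrank ℚ L ≤ d ∧
    ∃ P : MvPolynomial (Cj n k ⊕ Fin k × Wd W) ℂ, P.totalDegree ≤ δ ∧
      (∀ s, P.coeff s ∈ Submodule.span L (V : Set ℂ)) ∧
      MvPolynomial.aeval (Sum.elim (pjc ℓ fun i j => Hf (Hc (n j) (Q j)) (1 / α i) * E (cm (Am (n j))) (-ℓ i) * Ω i j)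
        fun p => vz (1 / α p.1) (lw p.2.1)) P = 0 ∧
      ∃ (l : Fin k → ℂ) (g : Fin k → ∀ j, Matrix (Fin (n j)) (Fin (n j)) ℂ) (x : Fin k → List Bool → ℂ),
        (∀ i j, g i j ∈ TU (n j) (Q j) (Complex.log (1 - 1 / α i)) (1 / α i)) ∧ (∀ i, Chr (x i)) ∧
        MvPolynomial.aeval (Sum.elim (pjc l fun i j => g i j * Ω i j) fun p => x p.1 p.2.1) P ≠ 0

/-- **almost all tuples** -/
theorem tup_jp (hP : PP) (hJ : JU n Q V') (k m δ d D W : ℕ) (hm : 1 ≤ m) :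
    ∃ c : ℝ, 0 < c ∧ ∃ C : ℝ, 0 ≤ C ∧ ∀ V : Submodule ℚ ℂ, Module.Finite ℚ V → Module.finrank ℚ V ≤ D →
      ∀ (Ω : Fin k → ∀ j, Matrix (Fin (n j)) (Fin (n j)) ℂ) (M : ℕ), 1 ≤ M →
      {α : Fin k → ℂ | (∀ i, Pool.Agent.Y916.Sl.SInt m M (α i)) ∧ ExcJP n Q δ d W V Ω α}.Finite ∧
      ({α : Fin k → ℂ | (∀ i, Pool.Agent.Y916.Sl.SInt m M (α i)) ∧ ExcJP n Q δ d W V Ω α}.ncard : ℝ) ≤
        C * (M : ℝ) ^ (-c) * ({ξ : ℂ | Pool.Agent.Y916.Sl.SInt m M ξ}.ncard : ℝ) ^ k := by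
  have hS : Sys (∑ j, n j) (blk n ℚ fun j => Am (n j)) (blk n ℚ fun j => Bm (n j) (Q j))
      (blk n ℚ⟦X⟧ fun j => Hp (n j) (Q j)) (blk n ℚ⟦X⟧ V') := (p_BLK r n _ _ _ V' hJ.sys).1
  obtain ⟨c, hc, C, hC, h⟩ := tup_poly hP hS (nolog_blk hJ) (tg hJ) k m δ d D W hm
  refine ⟨c, hc, C, hC, fun V hVf hV Ω M hM => ?_⟩
  obtain ⟨h1, h2⟩ := h V hVf hV (fun i => blk n ℂ (Ω i)) M hM
  have hsub : {α : Fin k → ℂ | (∀ i, Pool.Agent.Y916.Sl.SInt m M (α i)) ∧ ExcJP n Q δ d W V Ω α} ⊆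
      {α : Fin k → ℂ | (∀ i, Pool.Agent.Y916.Sl.SInt m M (α i)) ∧ ExcP (blk n ℚ fun j => Am (n j))
        (blk n ℚ⟦X⟧ fun j => Hp (n j) (Q j)) (TU0 n Q) δ d W V (fun i => blk n ℂ (Ω i)) α} := by
    rintro α ⟨hα, ℓ, hℓ, L, hL1, hL2, P, hPd, hPc, hP0, l, g, x, hg, hx, hPg⟩
    refine ⟨hα, ℓ, hℓ, L, hL1, hL2, MvPolynomial.rename (Sum.map (rc n k) id) P,
      (MvPolynomial.totalDegree_rename_le _ _).trans hPd, coeff_rename_mem _ _ P hPc, ?_, l, fun i => blk n ℂ (g i), x,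
      fun i => ⟨g i, hg i, rfl⟩, hx, ?_⟩
    · rw [MvPolynomial.aeval_rename]
      simp only [Hf_mul_E hJ]
      rw [Sum.elim_comp_map, pw_rc]
      exact hP0
    · rw [MvPolynomial.aeval_rename]
      have h3 : (fun i => blk n ℂ (g i) * blk n ℂ (Ω i)) = fun i => blk n ℂ fun j => g i j * Ω i j := by
        funext i
        rw [← map_mul]
        rfl
      rw [h3, Sum.elim_comp_map, pw_rc]
      exact hPg
  refine ⟨h1.subset hsub, le_trans ?_ h2⟩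
  exact_mod_cast Set.ncard_le_ncard hsub h1

/-- **windows** -/
theorem win_jp (hP : PP) (hJ : JU n Q V') (W : ℕ) :
    ∃ G0 : ℕ, 1 ≤ G0 ∧ ∀ G : ℕ, G0 ≤ G → ∀ (Ω : ∀ j, Matrix (Fin (n j)) (Fin (n j)) ℂ) (q k m d δ A : ℕ), ∃ Ex : ℕ,
      ∀ (M : ℕ) (ξ : ℂ), ((M : ℝ) + 2) ^ Ex ≤ ‖ξ‖ → Ht m A ξ → ∀ w : Fin q → ℂ, ∃ S : Finset ℕ,
      (S.card : Cardinal) ≤ Algebra.trdeg ℚ (IntermediateField.adjoin ℚ (insert (2 * Real.pi * Complex.I)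
        (Set.range fun p : Σ j : Fin r, Fin (n j) × Fin (n j) => Ω p.1 p.2.1 p.2.2))) + q + 1 ∧
      ∀ u : Fin k → ℕ, Function.Injective u → (∀ j, 1 ≤ u j ∧ u j ≤ M ∧ u j ∉ S) →
      (∀ j, 1 < ‖ξ - ((G * u j : ℕ) : ℂ)‖) ∧
      ∀ ℓ : Fin k → ℂ, (∀ j, Complex.exp (ℓ j) = ξ - ((G * u j : ℕ) : ℂ)) →
      ∀ K : IntermediateField ℚ ℂ, FiniteDimensional ℚ K → Module.finrank ℚ K ≤ d →
      ∀ P : MvPolynomial ((((Σ j : Fin r, Fin (n j) × Fin (n j)) ⊕ Fin q) ⊕ Cj n k) ⊕ Fin k × Wd W) K,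
      P.totalDegree ≤ δ →
      MvPolynomial.aeval (Sum.elim (Sum.elim (cs Ω w) (pjc ℓ
        (fun i j => Hf (Hc (n j) (Q j)) (1 / (ξ - ((G * u i : ℕ) : ℂ))) * E (cm (Am (n j))) (-ℓ i) * Ω j)))
        fun p => vz (1 / (ξ - ((G * u p.1 : ℕ) : ℂ))) (lw p.2.1)) P = 0 →
      ∀ (l : Fin k → ℂ) (g : Fin k → ∀ j, Matrix (Fin (n j)) (Fin (n j)) ℂ) (x : Fin k → List Bool → ℂ),
      (∀ i j, g i j ∈ TU (n j) (Q j) (Complex.log (1 - 1 / (ξ - ((G * u i : ℕ) : ℂ)))) (1 / (ξ - ((G * u i : ℕ) : ℂ)))) →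
      (∀ i, Chr (x i)) →
      MvPolynomial.aeval (Sum.elim (Sum.elim (cs Ω w) (pjc l (fun i j => g i j * Ω j))) fun p => x p.1 p.2.1) P = 0 := by
  have hS : Sys (∑ j, n j) (blk n ℚ fun j => Am (n j)) (blk n ℚ fun j => Bm (n j) (Q j))
      (blk n ℚ⟦X⟧ fun j => Hp (n j) (Q j)) (blk n ℚ⟦X⟧ V') := (p_BLK r n _ _ _ V' hJ.sys).1
  obtain ⟨G0, hG0, h⟩ := win_poly hP hS (nolog_blk hJ) (tg hJ) W
  refine ⟨G0, hG0, fun G hG Ω q k m d δ A => ?_⟩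
  obtain ⟨Ex, h⟩ := h G hG (blk n ℂ Ω) q k m d δ A
  refine ⟨Ex, fun M ξ hξ hht w => ?_⟩
  obtain ⟨S, hScard, h⟩ := h M ξ hξ hht w
  refine ⟨S, (trdeg_blk Ω) ▸ hScard, fun u hu hub => ?_⟩
  obtain ⟨h1, h⟩ := h u hu hub
  refine ⟨h1, fun ℓ hℓ K hKf hKd P hPd hP0 l g x hg hx => ?_⟩
  have h2 := h ℓ hℓ K hKf hKd (MvPolynomial.rename (Sum.map (rt n q k) id) P)
    ((MvPolynomial.totalDegree_rename_le _ _).trans hPd) (by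
      rw [MvPolynomial.aeval_rename]
      simp only [Hf_mul_E hJ]
      rw [Sum.elim_comp_map, cpt_rt]
      exact hP0) l (fun i => blk n ℂ (g i)) x (fun i => ⟨g i, hg i, rfl⟩) hx
  rw [MvPolynomial.aeval_rename] at h2
  have h3 : (fun i => blk n ℂ (g i) * blk n ℂ Ω) = fun i => blk n ℂ fun j => g i j * Ω j := by
    funext i
    rw [← map_mul]
    rfl
  rw [h3, Sum.elim_comp_map, cpt_rt] at h2
  exact h2

end Pool.Agent.Run7.h225.HP
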