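import Pool.Agent.Run7.h225.HP.Iface
import Pool.Agent.Run7.h225.HG.JC
import Pool.Agent.Run7.h225.HG.JW

/-!
# The logarithm of `1 - z` is not in the field generated by the solutions
-/

set_option autoImplicit false

open PowerSeries Matrix
open Pool.Agent.Y113 hiding Bm
open Pool.Agent.Y120.GF Pool.Agent.Y120.GH Pool.Agent.Y119.HZ
open Pool.Agent.Y119.HY (Am Bm Hc cm E Hf Yf Vr Rel Gal Sol PG Lens uc real_mem_Lens Ac_nil)
open Pool.Agent.Run7.h225.HG

namespace Pool.Agent.Run7.h225.HP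

/-! ### the series of the logarithm -/

lemma mz_nil (k : ℕ) : mz [] k = if k = 0 then 1 else 0 := rfl

lemma mz_one (k : ℕ) : mz [1] k = 1 / (k : ℚ) := by
  show (∑ j ∈ Finset.range k, mz [] j) / (k : ℚ) ^ 1 = _
  rw [pow_one]
  rcases k with _ | k
  · simp
  · congr 1
    rw [Finset.sum_range_succ', Finset.sum_eq_zero, zero_add]
    · rfl
    · intro i _
      rw [mz_nil, if_neg (by omega)]

lemma coeff_li_one (k : ℕ) : coeff k (li [1]) = 1 / (k : ℚ) := by
  unfold li
  rw [coeff_mk, mz_one]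

lemma SDc_zero : SDc (0 : ℚ⟦X⟧) := by
  have := SDc_C 0
  rwa [map_zero] at this

lemma SDc_li_one : SDc (li [1]) := by
  have h1 : li [1] = Pool.Agent.Y119.ML.In (PowerSeries.mk fun _ => (1 : ℚ)) := by
    ext k
    rw [coeff_li_one]
    unfold Pool.Agent.Y119.ML.In
    rw [coeff_mk, coeff_mk]
  have h2 : SDp (2 ^ 0) (PowerSeries.mk fun _ => (1 : ℚ)) := by
    refine ⟨fun m => ?_, fun m => ⟨1, one_pos, ?_, fun j _ => ⟨1, ?_⟩⟩⟩
    · rw [coeff_mk]
      simp
    · simp
    · rw [coeff_mk]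
      simp
  rw [h1]
  refine ⟨8, ?_⟩
  have h3 := Pool.Agent.Y119.ML.SDp_In h2
  simpa using h3

/-! ### the block of the logarithm -/

/-- the residue -/
def BU : Matrix (Fin 2) (Fin 2) ℚ := !![0, 1; 0, 0]

/-- the fundamental matrix -/
noncomputable def HU : Matrix (Fin 2) (Fin 2) ℚ⟦X⟧ := !![1, li [1]; 0, 1]

/-- its inverse -/
noncomputable def VU : Matrix (Fin 2) (Fin 2) ℚ⟦X⟧ := !![1, -li [1]; 0, 1]

lemma cf_HU (k : ℕ) : cf HU k = !![if k = 0 then 1 else 0, 1 / (k : ℚ); 0, if k = 0 then 1 else 0] := by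
  ext i j
  fin_cases i <;> fin_cases j
  · show coeff k (1 : ℚ⟦X⟧) = _
    rw [coeff_one]
    rfl
  · show coeff k (li [1]) = _
    rw [coeff_li_one]
    rfl
  · show coeff k (0 : ℚ⟦X⟧) = _
    rw [map_zero]
    rfl
  · show coeff k (1 : ℚ⟦X⟧) = _
    rw [coeff_one]
    rfl

theorem SysU : Sys 2 0 BU HU VU where
  int := ⟨0, fun i j => by simp⟩
  nil := by simp
  zero := by
    rw [cf_HU]
    ext i j
    fin_cases i <;> fin_cases j <;> simp
  step := by
    intro k
    rw [mul_zero, zero_mul, sub_zero, add_zero, mul_zero, zero_mul, sub_zero, add_zero, cf_HU, cf_HU]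
    have h1 : ((k : ℚ) + 1) ≠ 0 := by positivity
    ext i j
    fin_cases i <;> fin_cases j
    · simp [BU]
      intro h
      rw [h]
      simp
    · by_cases hk : k = 0
      · subst hk
        simp [BU]
      · have h2 : (k : ℚ) ≠ 0 := by exact_mod_cast hk
        simp [BU, hk, h1, h2]
    · simp [BU]
    · simp [BU]
      intro h
      rw [h]
      simp
  inv := by
    ext i j
    fin_cases i <;> fin_cases j <;> simp [HU, VU, Matrix.mul_apply, Fin.sum_univ_two]
  sH := by
    intro i j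
    fin_cases i <;> fin_cases j
    · exact SDc.one
    · exact SDc_li_one
    · exact SDc_zero
    · exact SDc.one
  sW := by
    intro i j
    fin_cases i <;> fin_cases j
    · exact SDc.one
    · show SDc (-li [1])
      have h1 := (SDc_C (-1)).mul SDc_li_one
      have h2 : (PowerSeries.C (-1 : ℚ) : ℚ⟦X⟧) * li [1] = -li [1] := by
        rw [map_neg, map_one, neg_one_mul]
      rwa [h2] at h1
    · exact SDc_zero
    · exact SDc.one

/-- the first basis vector -/
def e0 : Fin 2 → ℂ := ![1, 0]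

/-- the second basis vector -/
def e1 : Fin 2 → ℂ := ![0, 1]

lemma e1_e0 : e1 ⬝ᵥ e0 = 0 := by simp [e0, e1]

/-- the solution -/
theorem Yf_U {x : ℝ} (hx : 0 < x) (hx1 : x < 1) :
    Yf (cm (0 : Matrix (Fin 2) (Fin 2) ℚ)) (Hcg HU) (x : ℂ) = 1 + (-Complex.log (1 - x)) • vecMulVec e0 e1 := by
  have h0 : cm (0 : Matrix (Fin 2) (Fin 2) ℚ) = 0 := by
    ext i j
    rw [Pool.Agent.Y119.HY.cm_apply]
    simp
  have hE : E (0 : Matrix (Fin 2) (Fin 2) ℂ) (Complex.log x) = 1 := by
    unfold E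
    rw [Finset.sum_range_succ, Finset.sum_range_one]
    simp
  have hlog : ∑' k : ℕ, (1 / (k : ℂ)) * (x : ℂ) ^ k = -Complex.log (1 - x) := by
    have h1 := (Complex.hasSum_taylorSeries_neg_log (z := (x : ℂ)) (by
      rw [Complex.norm_real, Real.norm_of_nonneg hx.le]
      exact hx1)).tsum_eq
    rw [← h1]
    refine tsum_congr fun k => ?_
    rw [one_div, div_eq_mul_inv, mul_comm]
  have hs : ∑' k : ℕ, ((if k = 0 then 1 else 0 : ℚ) : ℂ) * (x : ℂ) ^ k = 1 := by
    rw [tsum_eq_single 0]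
    · simp
    · intro k hk
      rw [if_neg hk]
      simp
  unfold Yf
  rw [h0, hE, mul_one]
  unfold Hf Pool.Agent.Y119.HY.ps
  ext i j
  rw [Matrix.of_apply]
  unfold Hcg
  simp only [Pool.Agent.Y119.HY.cm_apply, cf_HU]
  fin_cases i <;> fin_cases j
  · refine hs.trans ?_
    simp [e0, e1]
  · refine Eq.trans ?_ (hlog.trans ?_)
    · refine tsum_congr fun k => ?_
      simp
    · simp [e0, e1]
  · simp [e0, e1]
  · refine hs.trans ?_
    simp [e0, e1]

end Pool.Agent.Run7.h225.HP
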