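import Pool.Agent.Run7.h225.HP.LOG

/-!
# The logarithm of `1 - z` is not in the field generated by the solutions: the group
-/

set_option autoImplicit false

open PowerSeries Matrix
open Pool.Agent.Y113 hiding Bm
open Pool.Agent.Y120.GF Pool.Agent.Y120.GH Pool.Agent.Y119.HZ
open Pool.Agent.Y119.HY (Am Bm Hc cm E Hf Yf Vr Rel Gal Sol PG Lens uc real_mem_Lens Ac_nil pt ev)
open Pool.Agent.Run7.h225.HG

namespace Pool.Agent.Run7.h225.HP

/-! ### local data, general form -/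

/-- local data at `1` -/
structure LK (m : ℕ) (Y : ℂ → Matrix (Fin m) (Fin m) ℂ) (τ : ℂ → ℂ) (u b : Fin m → ℂ) (K : ℕ → Matrix (Fin m) (Fin m) ℂ)
    (M Mi : Matrix (Fin m) (Fin m) ℂ) : Prop where
  gK : ∀ i j, PG fun k => K k i j
  dif : Differentiable ℂ τ
  l : M * Mi = 1
  con : ∀ x : ℝ, 0 < x → x < 1 → Y (x : ℂ) =
    Hf K (1 - (x : ℂ)) * (1 + τ (Complex.log (1 - (x : ℂ))) • vecMulVec u b) * M
  mul : ∀ a c, (1 + τ a • vecMulVec u b) * (1 + τ c • vecMulVec u b) = 1 + τ (a + c) • vecMulVec u b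

variable {r : ℕ} {n : Fin r → ℕ}

theorem loc_gen {Y : ∀ j, ℂ → Matrix (Fin (n j)) (Fin (n j)) ℂ} {τ : Fin r → ℂ → ℂ} {u b : ∀ j, Fin (n j) → ℂ}
    {K : ∀ j, ℕ → Matrix (Fin (n j)) (Fin (n j)) ℂ} {M Mi : ∀ j, Matrix (Fin (n j)) (Fin (n j)) ℂ}
    (h : ∀ j, LK (n j) (Y j) (τ j) (u j) (b j) (K j) (M j) (Mi j)) {Z : ℂ → Matrix (Fin (∑ j, n j)) (Fin (∑ j, n j)) ℂ}
    (hZ : ∀ z, Z z = blk n ℂ fun j => Y j z) (m : ℤ) :
    blk n ℂ (fun j => 1 + τ j (2 * Real.pi * Complex.I * m) • vecMulVec (Mi j *ᵥ u j) (b j ᵥ* M j)) ∈ Gal Z := by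
  have h1 := LOCJ.locj (∑ j, n j) Z (fun k => blk n ℂ fun j => K j k)
    (fun l => blk n ℂ fun j => 1 + τ j l • vecMulVec (u j) (b j))
    (blk n ℂ fun j => 1 + τ j (2 * Real.pi * Complex.I * m) • vecMulVec (u j) (b j)) (blk n ℂ M) (blk n ℂ Mi) m ?_ ?_ ?_ ?_ ?_
  · rw [← map_mul, ← map_mul] at h1
    refine (congrArg (fun g => blk n ℂ g ∈ Gal Z) ?_).mp h1
    funext j
    show Mi j * (1 + τ j (2 * Real.pi * Complex.I * m) • vecMulVec (u j) (b j)) * M j = _
    rw [mul_add, mul_one, add_mul, mul_eq_one_comm.1 (h j).l, mul_smul_comm, smul_mul_assoc, mul_vecMulVec, vecMulVec_mul]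
  · intro a c
    rcases BLK.blk_cases a c with h' | ⟨j, i, k, h'⟩
    · simp only [h']
      exact PG.zero
    · simp only [h']
      exact (h j).gK i k
  · intro a c
    rcases BLK.blk_cases a c with h' | ⟨j, i, k, h'⟩
    · simp only [h']
      exact differentiable_const 0
    · simp only [h', Matrix.add_apply, Matrix.smul_apply, smul_eq_mul]
      exact ((h j).dif.mul_const _).const_add _
  · rw [← map_mul, ← map_one (blk n ℂ)]
    congr 1
    funext j
    exact (h j).l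
  · intro x hx hx1
    rw [hZ, BLK.Hf_blk, ← map_mul, ← map_mul]
    congr 1
    funext j
    exact (h j).con x hx hx1
  · intro z
    rw [← map_mul]
    congr 1
    funext j
    exact ((h j).mul _ _).symm

/-! ### the unipotent part, general form -/

section uni

variable {N : ∀ j, Matrix (Fin (n j)) (Fin (n j)) ℂ}
  {S : Submonoid (∀ j, Matrix (Fin (n j)) (Fin (n j)) ℂ)} {𝔤 : Submodule ℂ (∀ j, Matrix (Fin (n j)) (Fin (n j)) ℂ)}
  {v μ : ∀ j, Fin (n j) → ℂ} {ζ : Fin r → ℂ} {U : Fin r → Prop} {κ : ℂ}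

open Classical in
theorem uni_gen (hL : LP N S 𝔤) (hκ : κ ≠ 0) (ord : ∃ d : ℕ, 0 < d ∧ ∀ j, ¬ U j → ζ j ^ d = 1)
    (mem : ∀ m : ℤ, (fun j => 1 + (if U j then κ * m else ζ j ^ m - 1) • vecMulVec (v j) (μ j)) ∈ S) (s : ℂ) :
    (fun j => 1 + s • vecMulVec (if U j then v j else 0) (μ j)) ∈ S := by
  obtain ⟨d, hd, hζ⟩ := ord
  set M : ∀ j, Matrix (Fin (n j)) (Fin (n j)) (Polynomial ℂ) := fun j =>
    1 + (Polynomial.X : Polynomial ℂ) • (vecMulVec (if U j then v j else 0) (μ j)).map Polynomial.C with hMdef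
  have hMe : ∀ c : ℂ, (fun j => (M j).map (Polynomial.eval c)) =
      fun j => 1 + c • vecMulVec (if U j then v j else 0) (μ j) := by
    intro c
    funext j
    ext i k
    rw [hMdef]
    simp only [Matrix.map_apply, Matrix.add_apply, Matrix.smul_apply, smul_eq_mul, Polynomial.eval_add,
      Polynomial.eval_mul, Polynomial.eval_X, Polynomial.eval_C]
    congr 1
    rw [Matrix.one_apply, Matrix.one_apply]
    split_ifs <;> simp
  have h1 := hL.clos M (Set.range fun m : ℕ => κ * ((d * m : ℕ) : ℂ)) ?_ ?_ s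
  · rw [hMe] at h1
    exact h1
  · refine Set.infinite_range_of_injective fun a b hab => ?_
    have h2 := mul_left_cancel₀ hκ hab
    have h3 : d * a = d * b := by exact_mod_cast h2
    exact Nat.eq_of_mul_eq_mul_left hd h3
  · rintro _ ⟨m, rfl⟩
    rw [hMe]
    have h2 := mem ((d * m : ℕ) : ℤ)
    refine (congrArg (· ∈ S) ?_).mp h2
    funext j
    by_cases hj : U j
    · rw [if_pos hj, if_pos hj]
      push_cast
      rfl
    · rw [if_neg hj, if_neg hj, zpow_natCast, pow_mul, hζ j hj, one_pow, sub_self, zero_smul, zero_vecMulVec, smul_zero]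

open Classical in
/-- the unipotent parts, one by one -/
theorem uni_one (hL : LP N S 𝔤) (hu : ∀ s : ℂ, (fun j => 1 + s • vecMulVec (if U j then v j else 0) (μ j)) ∈ S)
    (uni : ∀ j, U j → μ j ⬝ᵥ v j = 0)
    (sep : ∀ i j, i ≠ j → U i → U j → (∃ a : ℂ, qf (N i) (v i) (μ i) a * qf (N i) (v i) (μ i) (-a) ≠
      qf (N j) (v j) (μ j) a * qf (N j) (v j) (μ j) (-a)) ∨
    ∃ a b : ℂ, qf (N i) (v i) (μ i) a * qf (N i) (v i) (μ i) (b - a) * qf (N i) (v i) (μ i) (-b) -
        qf (N i) (v i) (μ i) b * qf (N i) (v i) (μ i) (a - b) * qf (N i) (v i) (μ i) (-a) ≠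
      qf (N j) (v j) (μ j) a * qf (N j) (v j) (μ j) (b - a) * qf (N j) (v j) (μ j) (-b) -
        qf (N j) (v j) (μ j) b * qf (N j) (v j) (μ j) (a - b) * qf (N j) (v j) (μ j) (-a)) (j : Fin r) (hj : U j) (s : ℂ) :
    Function.update (fun _ => 1) j (1 + s • vecMulVec (v j) (μ j)) ∈ S := by
  have h1 := t_sep' r n N (fun j => if U j then v j else 0) μ S hL.nil (fun i => ?_) hL.econj hu
    (fun M hM' => ?_) (fun i k hik hi hk => ?_) j s
  · simp only [if_pos hj] at h1
    exact h1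
  · show μ i ⬝ᵥ (if U i then v i else 0) = 0
    by_cases hi : U i
    · rw [if_pos hi]
      exact uni i hi
    · rw [if_neg hi, dotProduct_zero]
  · exact hL.clos M {c | c ≠ 0} (Set.infinite_of_finite_compl (by
      have : {c : ℂ | c ≠ 0}ᶜ = {0} := by
        ext c
        simp
      rw [this]
      exact Set.finite_singleton 0)) (fun c hc => hM' c hc) 0
  · have hi' : U i := by
      by_contra h
      simp only [if_neg h] at hi
      exact hi rfl
    have hk' : U k := by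
      by_contra h
      simp only [if_neg h] at hk
      exact hk rfl
    simp only [if_pos hi', if_pos hk']
    exact sep i k hik hi' hk'

end uni

end Pool.Agent.Run7.h225.HP
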