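import Pool.Agent.Run7.h225.HP.LOG2

/-!
# The logarithm of `1 - z` is not in the field generated by the solutions
-/

set_option autoImplicit false

open PowerSeries Matrix
open Pool.Agent.Y113 hiding Bm
open Pool.Agent.Y120.GF Pool.Agent.Y120.GH Pool.Agent.Y119.HZ
open Pool.Agent.Y119.HY (Am Bm Hc cm E Hf Yf Vr Rel Gal Sol PG Lens uc real_mem_Lens Ac_nil pt ev)
open Pool.Agent.Run7.h225.HG
open Run7.h893.HO hiding qp qp_eval

namespace Pool.Agent.Run7.h225.HP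

variable {r : ℕ}

/-- the sizes with an additional block -/
def nU (n : Fin r → ℕ) : Fin (r + 1) → ℕ := Fin.cases 2 n

/-- families with an additional member -/
def fc {n : Fin r → ℕ} (β : ℕ → Type) (a : β 2) (f : ∀ j, β (n j)) : ∀ j, β (nU n j) :=
  Fin.cases (motive := fun j => β (nU n j)) a f

variable {n : Fin r → ℕ} {Q : Fin r → Polynomial ℚ} {W : ∀ j, Matrix (Fin (n j)) (Fin (n j)) ℚ⟦X⟧}

/-- the residues at `0` -/
noncomputable def NU (n : Fin r → ℕ) : ∀ j, Matrix (Fin (nU n j)) (Fin (nU n j)) ℚ :=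
  fc (fun m => Matrix (Fin m) (Fin m) ℚ) 0 fun j => Am (n j)

/-- the residues at `1` -/
noncomputable def BU' (n : Fin r → ℕ) (Q : Fin r → Polynomial ℚ) : ∀ j, Matrix (Fin (nU n j)) (Fin (nU n j)) ℚ :=
  fc (fun m => Matrix (Fin m) (Fin m) ℚ) BU fun j => Bm (n j) (Q j)

/-- the fundamental matrices -/
noncomputable def HU' (n : Fin r → ℕ) (Q : Fin r → Polynomial ℚ) : ∀ j, Matrix (Fin (nU n j)) (Fin (nU n j)) ℚ⟦X⟧ :=
  fc (fun m => Matrix (Fin m) (Fin m) ℚ⟦X⟧) HU fun j => Hp (n j) (Q j)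

/-- the inverses -/
noncomputable def WU' (W : ∀ j, Matrix (Fin (n j)) (Fin (n j)) ℚ⟦X⟧) : ∀ j, Matrix (Fin (nU n j)) (Fin (nU n j)) ℚ⟦X⟧ :=
  fc (fun m => Matrix (Fin m) (Fin m) ℚ⟦X⟧) VU W

theorem sysU (hJ : JU n Q W) (j : Fin (r + 1)) : Sys (nU n j) (NU n j) (BU' n Q j) (HU' n Q j) (WU' W j) := by
  refine Fin.cases ?_ (fun j => ?_) j
  · exact SysU
  · exact hJ.sys j

/-- the joint solution with the additional block -/
noncomputable def YU (n : Fin r → ℕ) (Q : Fin r → Polynomial ℚ) :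
    ℂ → Matrix (Fin (∑ j, nU n j)) (Fin (∑ j, nU n j)) ℂ :=
  Yf (cm (blk (nU n) ℚ (NU n))) (Hcg (blk (nU n) ℚ⟦X⟧ (HU' n Q)))

/-- the blocks -/
noncomputable def Yb (n : Fin r → ℕ) (Q : Fin r → Polynomial ℚ) (z : ℂ) :
    ∀ j, Matrix (Fin (nU n j)) (Fin (nU n j)) ℂ := fun j => Yf (cm (NU n j)) (Hcg (HU' n Q j)) z

lemma YU_eq (hJ : JU n Q W) (z : ℂ) : YU n Q z = blk (nU n) ℂ (Yb n Q z) :=
  (p_BLK (r + 1) (nU n) (NU n) (BU' n Q) (HU' n Q) (WU' W) (sysU hJ)).2.1 z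

/-- the constant matrix -/
def dK : ℕ → Matrix (Fin 2) (Fin 2) ℂ
  | 0 => 1
  | _ + 1 => 0

lemma PG_delta (i j : Fin 2) : PG fun k : ℕ => dK k i j := by
  refine ⟨1, 0, fun k => ?_⟩
  rw [pow_zero, mul_one]
  rcases k with _ | k
  · show ‖(1 : Matrix (Fin 2) (Fin 2) ℂ) i j‖ ≤ 1
    rw [Matrix.one_apply]
    split_ifs <;> simp
  · show ‖(0 : ℂ)‖ ≤ 1
    simp

lemma Hf_delta (z : ℂ) : Hf dK z = 1 := by
  ext i j
  unfold Hf Pool.Agent.Y119.HY.ps
  rw [Matrix.of_apply, tsum_eq_single 0]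
  · rw [pow_zero, mul_one]
    rfl
  · intro k hk
    obtain ⟨k, rfl⟩ := Nat.exists_eq_succ_of_ne_zero hk
    show (0 : ℂ) * z ^ (k + 1) = 0
    rw [zero_mul]

theorem LK_log : LK 2 (fun z => Yf (cm (0 : Matrix (Fin 2) (Fin 2) ℚ)) (Hcg HU) z) (fun l => -l) e0 e1
    dK 1 1 where
  gK := PG_delta
  dif := differentiable_id.neg
  l := one_mul 1
  con := by
    intro x hx hx1
    rw [Yf_U hx hx1, Hf_delta, one_mul, mul_one]
  mul := by
    intro a c
    rw [add_mul, one_mul, mul_add, mul_one, smul_mul_smul_comm, vecMulVec_mul_vecMulVec, e1_e0, zero_smul, vecMulVec_zero,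
      smul_zero, add_zero, neg_add, add_smul]
    abel

theorem LK_hyp {m : ℕ} {P : Polynomial ℚ} (hQ : QG m P) {K : ℕ → Matrix (Fin m) (Fin m) ℂ} {M Mi : Matrix (Fin m) (Fin m) ℂ}
    (hD : LD m P K M Mi) : LK m (fun z => Yf (cm (Am m)) (Hcg (Hp m P)) z) (tau (P.coeff (m - 1))) (uc m) (bs m P) K M Mi where
  gK := fun i j => hD.gK hQ i j
  dif := tau_diff _
  l := hD.l
  con := by
    intro x hx hx1
    rw [Hcg_Hp]
    exact hD.con hQ (real_mem_Lens hx hx1)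
  mul := fun a c => tau_mul hQ a c

section group

variable {K : ∀ j, ℕ → Matrix (Fin (n j)) (Fin (n j)) ℂ} {M Mi : ∀ j, Matrix (Fin (n j)) (Fin (n j)) ℂ}

/-- the vectors -/
noncomputable def vU (Mi : ∀ j, Matrix (Fin (n j)) (Fin (n j)) ℂ) : ∀ j, Fin (nU n j) → ℂ :=
  fc (fun m => Fin m → ℂ) e0 fun j => Mi j *ᵥ uc (n j)

/-- the functionals -/
noncomputable def mU (Q : Fin r → Polynomial ℚ) (M : ∀ j, Matrix (Fin (n j)) (Fin (n j)) ℂ) : ∀ j, Fin (nU n j) → ℂ :=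
  fc (fun m => Fin m → ℂ) e1 fun j => bs (n j) (Q j) ᵥ* M j

/-- the unipotent blocks -/
def UU (n : Fin r → ℕ) (Q : Fin r → Polynomial ℚ) : Fin (r + 1) → Prop :=
  Fin.cases True fun j => (Q j).coeff (n j - 1) = 0

/-- the eigenvalues -/
noncomputable def zU (n : Fin r → ℕ) (Q : Fin r → Polynomial ℚ) : Fin (r + 1) → ℂ :=
  Fin.cases 1 fun j => Complex.exp (-(2 * Real.pi * Complex.I * ((Q j).coeff (n j - 1) : ℚ)))

open Classical in
theorem memU (hJ : JU n Q W) (hD : ∀ j, LD (n j) (Q j) (K j) (M j) (Mi j)) (m : ℤ) :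
    blk (nU n) ℂ (fun j => 1 + (if UU n Q j then -(2 * Real.pi * Complex.I) * m else zU n Q j ^ m - 1) •
      vecMulVec (vU Mi j) (mU Q M j)) ∈ Gal (YU n Q) := by
  have h1 := loc_gen (n := nU n) (Y := fun j z => Yf (cm (NU n j)) (Hcg (HU' n Q j)) z)
    (τ := Fin.cases (fun l => -l) fun j => tau ((Q j).coeff (n j - 1)))
    (u := fc (fun m => Fin m → ℂ) e0 fun j => uc (n j)) (b := fc (fun m => Fin m → ℂ) e1 fun j => bs (n j) (Q j))
    (K := fc (fun m => ℕ → Matrix (Fin m) (Fin m) ℂ) dK K)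
    (M := fc (fun m => Matrix (Fin m) (Fin m) ℂ) 1 M) (Mi := fc (fun m => Matrix (Fin m) (Fin m) ℂ) 1 Mi)
    (fun j => by
      refine Fin.cases ?_ (fun j => ?_) j
      · exact LK_log
      · exact LK_hyp (hJ.q j) (hD j)) (YU_eq hJ) m
  refine (congrArg (fun g => blk (nU n) ℂ g ∈ Gal (YU n Q)) ?_).mp h1
  funext j
  refine Fin.cases ?_ (fun j => ?_) j
  · rw [if_pos (show UU n Q 0 from trivial)]
    show 1 + (-(2 * Real.pi * Complex.I * m)) • vecMulVec ((1 : Matrix (Fin 2) (Fin 2) ℂ) *ᵥ e0) (e1 ᵥ* (1 : Matrix (Fin 2) (Fin 2) ℂ)) =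
      1 + (-(2 * Real.pi * Complex.I) * (m : ℂ)) • vecMulVec e0 e1
    rw [one_mulVec, vecMul_one]
    congr 2
    ring
  · by_cases h0 : (Q j).coeff (n j - 1) = 0
    · rw [if_pos (show UU n Q j.succ from h0)]
      show 1 + tau ((Q j).coeff (n j - 1)) (2 * Real.pi * Complex.I * m) • vecMulVec (Mi j *ᵥ uc (n j)) (bs (n j) (Q j) ᵥ* M j) =
        1 + (-(2 * Real.pi * Complex.I) * (m : ℂ)) • vecMulVec (Mi j *ᵥ uc (n j)) (bs (n j) (Q j) ᵥ* M j)
      congr 2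
      unfold tau
      rw [if_pos h0]
      ring
    · rw [if_neg (show ¬ UU n Q j.succ from h0)]
      show 1 + tau ((Q j).coeff (n j - 1)) (2 * Real.pi * Complex.I * m) • vecMulVec (Mi j *ᵥ uc (n j)) (bs (n j) (Q j) ᵥ* M j) =
        1 + (Complex.exp (-(2 * Real.pi * Complex.I * ((Q j).coeff (n j - 1) : ℚ))) ^ m - 1) •
          vecMulVec (Mi j *ᵥ uc (n j)) (bs (n j) (Q j) ᵥ* M j)
      congr 2
      unfold tau
      rw [if_neg h0, ← Complex.exp_int_mul]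
      congr 2
      ring

lemma E_zero2 (a : ℂ) : E (0 : Matrix (Fin 2) (Fin 2) ℂ) a = 1 := by
  unfold E
  rw [Finset.sum_range_succ, Finset.sum_range_one]
  simp

lemma qf_log (a : ℂ) : qf (cm (0 : Matrix (Fin 2) (Fin 2) ℚ)) e0 e1 a = 0 := by
  have h0 : cm (0 : Matrix (Fin 2) (Fin 2) ℚ) = 0 := by
    ext i j
    rw [Pool.Agent.Y119.HY.cm_apply]
    simp
  unfold qf
  rw [h0, E_zero2, one_mulVec, e1_e0]

/-- the separation of the logarithm from a hypergeometric block -/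
theorem sep_log {m : ℕ} {N : Matrix (Fin m) (Fin m) ℂ} {v μ : Fin m → ℂ} (hm : 1 ≤ m) (h : μ ⬝ᵥ ((N ^ (m - 1)) *ᵥ v) ≠ 0) :
    ∃ a : ℂ, qf N v μ a * qf N v μ (-a) ≠ 0 := by
  set q := qp N v μ with hq
  have hne : q ≠ 0 := by
    intro h0
    have h1 := qp_coeff (N := N) v μ (⟨m - 1, by omega⟩ : Fin m)
    rw [← hq, h0, Polynomial.coeff_zero] at h1
    have h2 : ((m - 1).factorial : ℂ) ≠ 0 := by exact_mod_cast (m - 1).factorial_ne_zero
    exact div_ne_zero h h2 h1.symm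
  have hne2 : q.comp (-Polynomial.X) ≠ 0 := by
    intro h0
    apply hne
    have h1 := congrArg (fun p => Polynomial.comp p (-Polynomial.X)) h0
    simp only [Polynomial.comp_assoc, Polynomial.neg_comp, Polynomial.X_comp, neg_neg, Polynomial.comp_X,
      Polynomial.zero_comp] at h1
    exact h1
  by_contra hcon
  push Not at hcon
  apply mul_ne_zero hne hne2
  refine Polynomial.funext fun a => ?_
  rw [Polynomial.eval_mul, Polynomial.eval_comp, Polynomial.eval_neg, Polynomial.eval_X, qp_eval, qp_eval, hcon,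
    Polynomial.eval_zero]

/-- the logarithm is moved, nothing else -/
noncomputable def gU (n : Fin r → ℕ) (s : ℂ) : ∀ j, Matrix (Fin (nU n j)) (Fin (nU n j)) ℂ :=
  fc (fun m => Matrix (Fin m) (Fin m) ℂ) (1 + s • vecMulVec e0 e1) fun _ => 1

open Classical in
/-- the logarithm can be moved alone -/
theorem galU (hJ : JU n Q W) (s : ℂ) : blk (nU n) ℂ (gU n s) ∈ Gal (YU n Q) := by
  have hD' := fun j => LD_exists2 (hJ.q j) (hJ.typ j)
  choose K M Mi hD using hD'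
  obtain ⟨S, 𝔤, hS, hL, -⟩ := p_LGB3 (r + 1) (nU n) (NU n) (BU' n Q) (HU' n Q) (WU' W) (sysU hJ)
  have hu := uni_gen (U := UU n Q) (ζ := zU n Q) (κ := -(2 * Real.pi * Complex.I)) (v := vU Mi) (μ := mU Q M) hL
    (neg_ne_zero.2 Complex.two_pi_I_ne_zero) ⟨∏ j, ((Q j).coeff (n j - 1)).den, Finset.prod_pos fun j _ => Rat.den_pos _,
      fun j => by
        refine Fin.cases ?_ (fun j => ?_) j
        · intro h
          exact absurd trivial h
        · intro _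
          show Complex.exp (-(2 * Real.pi * Complex.I * ((Q j).coeff (n j - 1) : ℚ))) ^ _ = 1
          obtain ⟨c, hc⟩ : ((Q j).coeff (n j - 1)).den ∣ ∏ j, ((Q j).coeff (n j - 1)).den :=
            Finset.dvd_prod_of_mem _ (Finset.mem_univ j)
          rw [hc, pow_mul, Complex.exp_neg, inv_pow, (zeta_primitive _).pow_eq_one, inv_one, one_pow]⟩
    (fun m => (hS _).2 (memU hJ hD m))
  have hcyc : ∀ j, (bs (n j) (Q j) ᵥ* M j) ⬝ᵥ ((cm (Am (n j)) ^ (n j - 1)) *ᵥ (Mi j *ᵥ uc (n j))) ≠ 0 :=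
    fun j => ((hD j).facts (hJ.q j) (hJ.q' j)).2
  have h1 := uni_one (U := UU n Q) hL hu (fun j => by
    refine Fin.cases ?_ (fun j => ?_) j
    · intro _
      exact e1_e0
    · intro hj
      have := ((hD j).facts (hJ.q j) (hJ.q' j)).1
      have hj' : (Q j).coeff (n j - 1) = 0 := hj
      rw [if_pos hj'] at this
      exact this) (fun i j => by
    refine Fin.cases ?_ (fun j => ?_) j <;> refine Fin.cases ?_ (fun i => ?_) i
    · intro h
      exact absurd rfl h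
    · intro _ _ _
      left
      obtain ⟨a, ha⟩ := sep_log (by have := (hJ.q i).two; omega) (hcyc i)
      refine ⟨a, ?_⟩
      show _ ≠ qf (cm (0 : Matrix (Fin 2) (Fin 2) ℚ)) e0 e1 a * qf (cm (0 : Matrix (Fin 2) (Fin 2) ℚ)) e0 e1 (-a)
      rw [qf_log, zero_mul]
      exact ha
    · intro _ _ _
      left
      obtain ⟨a, ha⟩ := sep_log (by have := (hJ.q j).two; omega) (hcyc j)
      refine ⟨a, ?_⟩
      show qf (cm (0 : Matrix (Fin 2) (Fin 2) ℚ)) e0 e1 a * qf (cm (0 : Matrix (Fin 2) (Fin 2) ℚ)) e0 e1 (-a) ≠ _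
      rw [qf_log, zero_mul]
      exact ha.symm
    · intro hij hi hj
      have hi' : (Q i).coeff (n i - 1) = 0 := hi
      have hj' : (Q j).coeff (n j - 1) = 0 := hj
      obtain ⟨H₁', K₁', h₁⟩ := (hD i).u hi'
      obtain ⟨H₂', K₂', h₂⟩ := (hD j).u hj'
      exact sepU_pair t_asy (hJ.q i) (hJ.q' i) (hJ.q j) (hJ.q' j) hi' hj' h₁ h₂
        (hJ.ne i j (fun h => hij (congrArg Fin.succ h))) rfl
        (by
          show bs (n i) (Q i) ᵥ* M i = _
          simp only [bs, if_pos hi']) rfl (by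
          show bs (n j) (Q j) ᵥ* M j = _
          simp only [bs, if_pos hj'])) 0 trivial s
  refine (hS _).1 ?_
  refine (congrArg (· ∈ S) ?_).mp h1
  funext j
  refine Fin.cases ?_ (fun j => ?_) j
  · rw [Function.update_self]
    rfl
  · rw [Function.update_of_ne (Fin.succ_ne_zero j)]
    rfl

end group

end Pool.Agent.Run7.h225.HP
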