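import Pool.Agent.Run7.h225.HG.BLK

/-!
# Direct sums of two systems
-/

set_option autoImplicit false

open PowerSeries Matrix
open Pool.Agent.Y113 hiding Bm
open Pool.Agent.Y120.GF Pool.Agent.Y120.GH Pool.Agent.Y119.HZ
open Pool.Agent.Y119.HY (cm E Hf Yf)
open Pool.Agent.Run7.h225.HG

namespace Pool.Agent.Run7.h225.HP

/-- two sizes -/
def n2 (n m : ℕ) : Fin 2 → ℕ := Fin.cases n fun _ => m

/-- two objects -/
def f2 {n m : ℕ} (β : ℕ → Type) (a : β n) (b : β m) : ∀ j, β (n2 n m j) :=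
  Fin.cases (motive := fun j => β (n2 n m j)) a fun j => Fin.cases (motive := fun j => β (n2 n m j.succ)) b (fun j => j.elim0) j

variable {n m : ℕ}

/-- the coordinates of the first block -/
def c0 (n m : ℕ) (i : Fin n) : Fin (n2 n m 0) := i

/-- the coordinates of the second block -/
def c1 (n m : ℕ) (i : Fin m) : Fin (n2 n m 1) := i

/-- the coordinates of the first block in the sum -/
def i0 (n m : ℕ) (i : Fin n) : Fin (∑ j, n2 n m j) := finSigmaFinEquiv (n := n2 n m) ⟨0, c0 n m i⟩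

/-- the coordinates of the second block in the sum -/
def i1 (n m : ℕ) (i : Fin m) : Fin (∑ j, n2 n m j) := finSigmaFinEquiv (n := n2 n m) ⟨1, c1 n m i⟩

/-- the block diagonal matrix -/
noncomputable def bl {R : Type} [CommRing R] (X : Matrix (Fin n) (Fin n) R) (Y : Matrix (Fin m) (Fin m) R) :
    Matrix (Fin (∑ j, n2 n m j)) (Fin (∑ j, n2 n m j)) R :=
  blk (n2 n m) R (f2 (fun k => Matrix (Fin k) (Fin k) R) X Y)

section

variable {R : Type} [CommRing R]

lemma bl_00 (X : Matrix (Fin n) (Fin n) R) (Y : Matrix (Fin m) (Fin m) R) (a b : Fin n) :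
    bl X Y (i0 n m a) (i0 n m b) = X a b := by
  unfold bl i0
  rw [BLK.blk_apply, Equiv.symm_apply_apply, Equiv.symm_apply_apply, Matrix.blockDiagonal'_apply_eq]
  rfl

lemma bl_11 (X : Matrix (Fin n) (Fin n) R) (Y : Matrix (Fin m) (Fin m) R) (a b : Fin m) :
    bl X Y (i1 n m a) (i1 n m b) = Y a b := by
  unfold bl i1
  rw [BLK.blk_apply, Equiv.symm_apply_apply, Equiv.symm_apply_apply, Matrix.blockDiagonal'_apply_eq]
  rfl

lemma bl_mul (X X' : Matrix (Fin n) (Fin n) R) (Y Y' : Matrix (Fin m) (Fin m) R) :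
    bl X Y * bl X' Y' = bl (X * X') (Y * Y') := by
  unfold bl
  rw [← map_mul]
  congr 1
  funext j
  fin_cases j
  · rfl
  · rfl

end

lemma bl_cases (a b : Fin (∑ j, n2 n m j)) :
    (∀ (R : Type) [CommRing R] (X : Matrix (Fin n) (Fin n) R) (Y : Matrix (Fin m) (Fin m) R), bl X Y a b = 0) ∨
    (∃ i k, ∀ (R : Type) [CommRing R] (X : Matrix (Fin n) (Fin n) R) (Y : Matrix (Fin m) (Fin m) R), bl X Y a b = X i k) ∨
    ∃ i k, ∀ (R : Type) [CommRing R] (X : Matrix (Fin n) (Fin n) R) (Y : Matrix (Fin m) (Fin m) R), bl X Y a b = Y i k := by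
  rcases BLK.blk_cases (n := n2 n m) a b with h | ⟨j, i, k, h⟩
  · exact Or.inl fun R _ X Y => h R _
  · fin_cases j
    · exact Or.inr (Or.inl ⟨i, k, fun R _ X Y => h R _⟩)
    · exact Or.inr (Or.inr ⟨i, k, fun R _ X Y => h R _⟩)

/-! ### systems -/

variable {N B : Matrix (Fin n) (Fin n) ℚ} {H W : Matrix (Fin n) (Fin n) ℚ⟦X⟧}
  {N' B' : Matrix (Fin m) (Fin m) ℚ} {H' W' : Matrix (Fin m) (Fin m) ℚ⟦X⟧}

theorem sys_bl (h : Sys n N B H W) (h' : Sys m N' B' H' W') :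
    Sys (∑ j, n2 n m j) (bl N N') (bl B B') (bl H H') (bl W W') :=
  BLK.Sys_blk _ _ _ _ fun j => by
    fin_cases j
    · exact h
    · exact h'

theorem Hf_bl (H : Matrix (Fin n) (Fin n) ℚ⟦X⟧) (H' : Matrix (Fin m) (Fin m) ℚ⟦X⟧) (z : ℂ) :
    Hf (Hcg (bl H H')) z = bl (Hf (Hcg H) z) (Hf (Hcg H') z) := by
  unfold bl
  rw [BLK.Hcg_blk, BLK.Hf_blk]
  congr 1
  funext j
  fin_cases j
  · rfl
  · rfl

theorem E_bl (hN : N ^ n = 0) (hN' : N' ^ m = 0) (c : ℂ) : E (cm (bl N N')) c = bl (E (cm N) c) (E (cm N') c) := by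
  unfold bl
  rw [BLK.cm_blk, BLK.E_blk]
  · congr 1
    funext j
    fin_cases j
    · rfl
    · rfl
  · intro j
    fin_cases j
    · show cm N ^ n = 0
      rw [← Pool.Agent.Y119.HY.cm_pow, hN, Pool.Agent.Y119.HY.cm_zero]
    · show cm N' ^ m = 0
      rw [← Pool.Agent.Y119.HY.cm_pow, hN', Pool.Agent.Y119.HY.cm_zero]

end Pool.Agent.Run7.h225.HP
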