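import Pool.Agent.Run7.h225.HP.PUSH

/-!
# Almost all tuples of algebraic fibres: polylogarithms and general systems
-/

set_option autoImplicit false

open PowerSeries Matrix
open Pool.Agent.Y113 hiding Bm
open Pool.Agent.Y120.GF Pool.Agent.Y120.GH Pool.Agent.Y119.HZ
open Pool.Agent.Y119.HY (cm E Hf Yf E_mul_neg)
open Pool.Agent.Y118.UL (Irr)
open Pool.Agent.Run7.h225.HG

namespace Pool.Agent.Run7.h225.HP

/-- coefficients of renamed polynomials -/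
lemma coeff_rename_mem {σ τ K : Type} [Field K] [Algebra K ℂ] (V : Submodule K ℂ) (f : σ → τ) (P : MvPolynomial σ ℂ)
    (h : ∀ s, P.coeff s ∈ V) (s : τ →₀ ℕ) : (MvPolynomial.rename f P).coeff s ∈ V := by
  classical
  have h1 : MvPolynomial.rename f P = ∑ u ∈ P.support, MvPolynomial.monomial (Finsupp.mapDomain f u) (P.coeff u) := by
    conv_lhs => rw [P.as_sum, map_sum]
    refine Finset.sum_congr rfl fun u _ => ?_
    rw [MvPolynomial.rename_monomial]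
  rw [h1, MvPolynomial.coeff_sum]
  refine V.sum_mem fun u _ => ?_
  rw [MvPolynomial.coeff_monomial]
  split_ifs
  · exact h u
  · exact V.zero_mem

variable {n m W k : ℕ}

/-- the coordinates -/
def rh (e : Wd W → Fin m × Fin m) (k n : ℕ) : Jx (fun _ : Fin k => n) ⊕ Fin k × Wd W → Jx (fun _ : Fin k => ∑ j, n2 n m j)
  | Sum.inl ⟨i, none⟩ => ⟨i, none⟩
  | Sum.inl ⟨i, some p⟩ => ⟨i, some (i0 n m p.1, i0 n m p.2)⟩
  | Sum.inr (i, w) => ⟨i, some (i1 n m (e w).1, i1 n m (e w).2)⟩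

lemma pw_rh (e : Wd W → Fin m × Fin m) (l : Fin k → ℂ) (X : Fin k → Matrix (Fin n) (Fin n) ℂ)
    (Y : Fin k → Matrix (Fin m) (Fin m) ℂ) :
    pw (n := fun _ : Fin k => ∑ j, n2 n m j) l (fun i => bl (X i) (Y i)) ∘ rh e k n =
      Sum.elim (pw (n := fun _ : Fin k => n) l X) fun p => Y p.1 (e p.2).1 (e p.2).2 := by
  funext v
  rcases v with ⟨i, _ | p⟩ | ⟨i, w⟩
  · rfl
  · exact bl_00 _ _ _ _
  · exact bl_11 _ _ _ _

/-- the exceptional tuples -/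
def ExcP {n : ℕ} (N : Matrix (Fin n) (Fin n) ℚ) (H : Matrix (Fin n) (Fin n) ℚ⟦X⟧)
    (T : ℂ → Set (Matrix (Fin n) (Fin n) ℂ)) (δ d W : ℕ) (V : Submodule ℚ ℂ) {k : ℕ}
    (Ω : Fin k → Matrix (Fin n) (Fin n) ℂ) (α : Fin k → ℂ) : Prop :=
  ∃ ℓ : Fin k → ℂ, (∀ i, Complex.exp (ℓ i) = α i) ∧
    ∃ L : IntermediateField ℚ ℂ, FiniteDimensional ℚ L ∧ Module.finrank ℚ L ≤ d ∧
    ∃ P : MvPolynomial (Jx (fun _ : Fin k => n) ⊕ Fin k × Wd W) ℂ, P.totalDegree ≤ δ ∧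
      (∀ s, P.coeff s ∈ Submodule.span L (V : Set ℂ)) ∧
      MvPolynomial.aeval (Sum.elim (pw (n := fun _ : Fin k => n) ℓ fun i => Hf (Hcg H) (1 / α i) * E (cm N) (-ℓ i) * Ω i)
        fun p => vz (1 / α p.1) (lw p.2.1)) P = 0 ∧
      ∃ (l : Fin k → ℂ) (g : Fin k → Matrix (Fin n) (Fin n) ℂ) (x : Fin k → List Bool → ℂ),
        (∀ i, g i ∈ T (1 / α i)) ∧ (∀ i, Chr (x i)) ∧
        MvPolynomial.aeval (Sum.elim (pw (n := fun _ : Fin k => n) l fun i => g i * Ω i) fun p => x p.1 p.2.1) P ≠ 0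

/-- the torsor, everything outside the unit disk -/
def TQ {n m W : ℕ} (T : ℂ → Set (Matrix (Fin n) (Fin n) ℂ)) (c : Fin m → Fin m → Wd W → ℚ) (z : ℂ) :
    Set (Matrix (Fin (∑ j, n2 n m j)) (Fin (∑ j, n2 n m j)) ℂ) := {Z | ‖z‖ < 1 → Z ∈ TP T c z}

variable {N B : Matrix (Fin n) (Fin n) ℚ} {H V' : Matrix (Fin n) (Fin n) ℚ⟦X⟧} {H' : Matrix (Fin m) (Fin m) ℚ⟦X⟧}
  {T : ℂ → Set (Matrix (Fin n) (Fin n) ℂ)} {c : Fin m → Fin m → Wd W → ℚ}

lemma TQ_eq {z : ℂ} (hz : ‖z‖ < 1) : TQ T c z = TP T c z := by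
  ext Z
  exact ⟨fun h => h hz, fun h _ => h⟩

theorem tv_TQ (h : TV (bl H H') (TP T c)) : TV (bl H H') (TQ T c) := by
  refine ⟨fun z hz => ?_, fun z hz => ?_, fun z hz => ?_⟩
  · rw [TQ_eq hz]
    exact h.pt z hz
  · rw [TQ_eq hz]
    exact h.irr z hz
  · rw [TQ_eq hz]
    exact h.vc z hz

lemma E0 (c : ℂ) : E (cm (0 : Matrix (Fin m) (Fin m) ℚ)) c = 1 := by
  rw [Pool.Agent.Y119.HY.cm_zero]
  unfold E
  rcases Nat.eq_zero_or_pos m with h | h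
  · subst h
    ext i
    exact i.elim0
  · rw [Finset.sum_eq_single 0]
    · simp
    · intro i _ hi
      rw [zero_pow hi, smul_zero]
    · intro h0
      exact absurd (Finset.mem_range.2 h) h0

lemma Hf_entry (H' : Matrix (Fin m) (Fin m) ℚ⟦X⟧) (z : ℂ) (a b : Fin m) :
    Hf (Hcg H') z a b = Pool.Agent.Y916.Al.evc z (H' a b) := by
  unfold Hf
  rw [Matrix.of_apply]
  unfold Pool.Agent.Y119.HY.ps Pool.Agent.Y916.Al.evc
  exact tsum_congr fun k => rfl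

lemma Mx_e {e : Wd W → Fin m × Fin m} (he : ∀ w, c (e w).1 (e w).2 = Pi.single w 1) (x : List Bool → ℂ) (w : Wd W) :
    Mx c x (e w).1 (e w).2 = x w.1 := by
  show ∑ w', algebraMap ℚ ℂ (c (e w).1 (e w).2 w') * x w'.1 = x w.1
  rw [he, Finset.sum_eq_single w]
  · rw [Pi.single_eq_same, map_one, one_mul]
  · intro w' _ h
    rw [Pi.single_eq_of_ne h, map_zero, zero_mul]
  · intro h
    exact absurd (Finset.mem_univ w) h

lemma H_e (hc : ∀ a b, H' a b = ∑ w, PowerSeries.C (c a b w) * lw w.1) {e : Wd W → Fin m × Fin m}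
    (he : ∀ w, c (e w).1 (e w).2 = Pi.single w 1) (w : Wd W) : H' (e w).1 (e w).2 = lw w.1 := by
  rw [hc, he, Finset.sum_eq_single w]
  · rw [Pi.single_eq_same, map_one, one_mul]
  · intro w' _ h
    rw [Pi.single_eq_of_ne h, map_zero, zero_mul]
  · intro h
    exact absurd (Finset.mem_univ w) h

/-- from exceptional tuples to exceptional tuples of the direct sum -/
theorem excV_of (hS : Sys n N B H V') (hT : TG N H T) (hc : ∀ a b, H' a b = ∑ w, PowerSeries.C (c a b w) * lw w.1)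
    {e : Wd W → Fin m × Fin m} (he : ∀ w, c (e w).1 (e w).2 = Pi.single w 1) {δ d : ℕ} {V : Submodule ℚ ℂ}
    {Ω : Fin k → Matrix (Fin n) (Fin n) ℂ} {α : Fin k → ℂ} (h : ExcP N H T δ d W V Ω α) :
    ExcV (bl N (0 : Matrix (Fin m) (Fin m) ℚ)) (bl H H') (TQ T c) δ d V (fun i => bl (Ω i) 1) α := by
  obtain ⟨ℓ, hℓ, L, hL1, hL2, P, hPd, hPc, hP0, l, g, x, hg, hx, hPg⟩ := h
  have hN0 : N ^ n = 0 := hS.nil
  have hN : cm N ^ n = 0 := SYS2.cm_nil hS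
  have hE : ∀ z : ℂ, E (cm (bl N (0 : Matrix (Fin m) (Fin m) ℚ))) z = bl (E (cm N) z) 1 := by
    intro z
    rcases Nat.eq_zero_or_pos m with h | h
    · subst h
      rw [E_bl hN0 (by ext i; exact i.elim0), E0]
    · rw [E_bl hN0 (zero_pow (by omega)), E0]
  refine ⟨ℓ, hℓ, L, hL1, hL2, MvPolynomial.rename (rh e k n) P, (MvPolynomial.totalDegree_rename_le _ _).trans hPd,
    coeff_rename_mem _ _ P hPc, ?_, l, fun i => bl (g i * E (cm N) (l i)) (Mx c (x i)), fun i hz => ?_, ?_⟩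
  · rw [MvPolynomial.aeval_rename]
    have h1 : (fun i => Hf (Hcg (bl H H')) (1 / α i) * E (cm (bl N (0 : Matrix (Fin m) (Fin m) ℚ))) (-ℓ i) * bl (Ω i) 1) =
        fun i => bl (Hf (Hcg H) (1 / α i) * E (cm N) (-ℓ i) * Ω i) (Hf (Hcg H') (1 / α i)) := by
      funext i
      rw [hE, Hf_bl, bl_mul, bl_mul, mul_one, mul_one]
    rw [h1, pw_rh]
    have h2 : (fun p : Fin k × Wd W => Hf (Hcg H') (1 / α p.1) (e p.2).1 (e p.2).2) = fun p => vz (1 / α p.1) (lw p.2.1) := by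
      funext p
      rw [Hf_entry, H_e hc he]
      rfl
    rw [h2]
    exact hP0
  · exact ⟨_, hT.lin _ hz _ (hg i) (l i), _, hx i, rfl⟩
  · rw [MvPolynomial.aeval_rename]
    have h1 : (fun i => bl (g i * E (cm N) (l i)) (Mx c (x i)) * E (cm (bl N (0 : Matrix (Fin m) (Fin m) ℚ))) (-l i) *
        bl (Ω i) 1) = fun i => bl (g i * Ω i) (Mx c (x i)) := by
      funext i
      have e1 : E (cm N) (l i) * E (cm N) (-l i) = 1 := E_mul_neg hN (l i)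
      rw [hE, bl_mul, bl_mul, mul_one, mul_one, Matrix.mul_assoc (g i), e1, mul_one]
    rw [h1, pw_rh]
    have h2 : (fun p : Fin k × Wd W => Mx c (x p.1) (e p.2).1 (e p.2).2) = fun p => x p.1 p.2.1 := by
      funext p
      exact Mx_e he _ _
    rw [h2]
    exact hPg

/-- **almost all tuples** -/
theorem tup_poly (hP : PP) (hS : Sys n N B H V') (hNL : NoLog (hfg H)) (hT : TG N H T) (k m' δ d D W : ℕ) (hm : 1 ≤ m') :
    ∃ c : ℝ, 0 < c ∧ ∃ C : ℝ, 0 ≤ C ∧ ∀ V : Submodule ℚ ℂ, Module.Finite ℚ V → Module.finrank ℚ V ≤ D →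
      ∀ (Ω : Fin k → Matrix (Fin n) (Fin n) ℂ) (M : ℕ), 1 ≤ M →
      {α : Fin k → ℂ | (∀ i, Pool.Agent.Y916.Sl.SInt m' M (α i)) ∧ ExcP N H T δ d W V Ω α}.Finite ∧
      ({α : Fin k → ℂ | (∀ i, Pool.Agent.Y916.Sl.SInt m' M (α i)) ∧ ExcP N H T δ d W V Ω α}.ncard : ℝ) ≤
        C * (M : ℝ) ^ (-c) * ({ξ : ℂ | Pool.Agent.Y916.Sl.SInt m' M ξ}.ncard : ℝ) ^ k := by
  obtain ⟨m, N', B', H', V'', c, e, hS', hc, he⟩ := hP.plw W
  obtain ⟨c₀, hc₀, C, hC, h⟩ := tupB p_GFS (sys_bl hS hS') (bl N (0 : Matrix (Fin m) (Fin m) ℚ))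
    (tv_TQ (tv_bl hP hS hNL hT hc)) k m' δ d D hm
  refine ⟨c₀, hc₀, C, hC, fun V hV hVD Ω M hM => ?_⟩
  obtain ⟨h1, h2⟩ := h V hV hVD (fun i => bl (Ω i) 1) M hM
  have hsub : {α : Fin k → ℂ | (∀ i, Pool.Agent.Y916.Sl.SInt m' M (α i)) ∧ ExcP N H T δ d W V Ω α} ⊆
      {α : Fin k → ℂ | (∀ i, Pool.Agent.Y916.Sl.SInt m' M (α i)) ∧
        ExcV (bl N (0 : Matrix (Fin m) (Fin m) ℚ)) (bl H H') (TQ T c) δ d V (fun i => bl (Ω i) 1) α} :=
    fun α hα => ⟨hα.1, excV_of hS hT hc he hα.2⟩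
  refine ⟨h1.subset hsub, le_trans ?_ h2⟩
  exact_mod_cast Set.ncard_le_ncard hsub h1

end Pool.Agent.Run7.h225.HP
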