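import Pool.Agent.Run7.h225.HP.TUPP

/-!
# Windows at algebraic points: polylogarithms and general systems
-/

set_option autoImplicit false

open PowerSeries Matrix
open Pool.Agent.Y113 hiding Bm
open Pool.Agent.Y120.GF Pool.Agent.Y120.GH Pool.Agent.Y119.HZ
open Pool.Agent.Y119.HY (cm E Hf Yf E_mul_neg)
open Pool.Agent.Y118.UL (Irr)
open Pool.Agent.Y916.Al (Ht)
open Pool.Agent.Y119.HA (Cx cpt)
open Pool.Agent.Run7.h225.HG

namespace Pool.Agent.Run7.h225.HP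

variable {n m W k q : ℕ}

/-- the coordinates -/
def rw2 (e : Wd W → Fin m × Fin m) (k n q : ℕ) : Cx n q k ⊕ Fin k × Wd W → Cx (∑ j, n2 n m j) q k
  | Sum.inl (Sum.inl (Sum.inl p)) => Sum.inl (Sum.inl (i0 n m p.1, i0 n m p.2))
  | Sum.inl (Sum.inl (Sum.inr a)) => Sum.inl (Sum.inr a)
  | Sum.inl (Sum.inr v) => Sum.inr (rh e k n (Sum.inl v))
  | Sum.inr p => Sum.inr (rh e k n (Sum.inr p))

lemma cpt_rw2 (e : Wd W → Fin m × Fin m) (Ω : Matrix (Fin n) (Fin n) ℂ) (w : Fin q → ℂ) (l : Fin k → ℂ)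
    (X : Fin k → Matrix (Fin n) (Fin n) ℂ) (Y : Fin k → Matrix (Fin m) (Fin m) ℂ) :
    cpt (bl Ω (1 : Matrix (Fin m) (Fin m) ℂ)) w l (fun i => bl (X i) (Y i)) ∘ rw2 e k n q =
      Sum.elim (cpt Ω w l X) fun p => Y p.1 (e p.2).1 (e p.2).2 := by
  funext v
  rcases v with ((p | a) | v) | p
  · exact bl_00 _ _ _ _
  · rfl
  · exact congrFun (pw_rh e l X Y) (Sum.inl v)
  · exact congrFun (pw_rh e l X Y) (Sum.inr p)

lemma adj_bl (Ω : Matrix (Fin n) (Fin n) ℂ) :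
    IntermediateField.adjoin ℚ (insert (2 * Real.pi * Complex.I)
      (Set.range fun p : Fin (∑ j, n2 n m j) × Fin (∑ j, n2 n m j) => bl Ω (1 : Matrix (Fin m) (Fin m) ℂ) p.1 p.2)) =
    IntermediateField.adjoin ℚ (insert (2 * Real.pi * Complex.I)
      (Set.range fun p : Fin n × Fin n => Ω p.1 p.2)) := by
  apply le_antisymm
  · rw [IntermediateField.adjoin_le_iff]
    rintro x (rfl | ⟨p, rfl⟩)
    · exact IntermediateField.subset_adjoin _ _ (Set.mem_insert _ _)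
    · rcases bl_cases (n := n) (m := m) p.1 p.2 with h | ⟨i, k, h⟩ | ⟨i, k, h⟩
      · simp only [h]
        exact zero_mem _
      · simp only [h]
        exact IntermediateField.subset_adjoin _ _ (Set.mem_insert_of_mem _ ⟨⟨i, k⟩, rfl⟩)
      · simp only [h, Matrix.one_apply]
        split_ifs
        · exact one_mem _
        · exact zero_mem _
  · rw [IntermediateField.adjoin_le_iff]
    rintro x (rfl | ⟨p, rfl⟩)
    · exact IntermediateField.subset_adjoin _ _ (Set.mem_insert _ _)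
    · exact IntermediateField.subset_adjoin _ _ (Set.mem_insert_of_mem _ ⟨(i0 n m p.1, i0 n m p.2), bl_00 _ _ _ _⟩)

lemma trdeg_eq' {K L : IntermediateField ℚ ℂ} (h : K = L) : Algebra.trdeg ℚ K = Algebra.trdeg ℚ L := by
  subst h
  rfl

variable {N B : Matrix (Fin n) (Fin n) ℚ} {H V' : Matrix (Fin n) (Fin n) ℚ⟦X⟧}
  {T : ℂ → Set (Matrix (Fin n) (Fin n) ℂ)}

/-- **windows** -/
theorem win_poly (hP : PP) (hS : Sys n N B H V') (hNL : NoLog (hfg H)) (hT : TG N H T) (W : ℕ) :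
    ∃ G0 : ℕ, 1 ≤ G0 ∧ ∀ G : ℕ, G0 ≤ G → ∀ (Ω : Matrix (Fin n) (Fin n) ℂ) (q k m' d δ A : ℕ), ∃ Ex : ℕ, ∀ (M : ℕ) (ξ : ℂ),
      ((M : ℝ) + 2) ^ Ex ≤ ‖ξ‖ → Ht m' A ξ → ∀ w : Fin q → ℂ, ∃ S : Finset ℕ,
      (S.card : Cardinal) ≤ Algebra.trdeg ℚ (IntermediateField.adjoin ℚ (insert (2 * Real.pi * Complex.I)
        (Set.range fun p : Fin n × Fin n => Ω p.1 p.2))) + q + 1 ∧
      ∀ u : Fin k → ℕ, Function.Injective u → (∀ j, 1 ≤ u j ∧ u j ≤ M ∧ u j ∉ S) →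
      (∀ j, 1 < ‖ξ - ((G * u j : ℕ) : ℂ)‖) ∧
      ∀ ℓ : Fin k → ℂ, (∀ j, Complex.exp (ℓ j) = ξ - ((G * u j : ℕ) : ℂ)) →
      ∀ K : IntermediateField ℚ ℂ, FiniteDimensional ℚ K → Module.finrank ℚ K ≤ d →
      ∀ P : MvPolynomial (Cx n q k ⊕ Fin k × Wd W) K, P.totalDegree ≤ δ →
      MvPolynomial.aeval (Sum.elim (cpt Ω w ℓ
        (fun j => Hf (Hcg H) (1 / (ξ - ((G * u j : ℕ) : ℂ))) * E (cm N) (-ℓ j) * Ω))
        fun p => vz (1 / (ξ - ((G * u p.1 : ℕ) : ℂ))) (lw p.2.1)) P = 0 →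
      ∀ (l : Fin k → ℂ) (g : Fin k → Matrix (Fin n) (Fin n) ℂ) (x : Fin k → List Bool → ℂ),
      (∀ j, g j ∈ T (1 / (ξ - ((G * u j : ℕ) : ℂ)))) → (∀ j, Chr (x j)) →
      MvPolynomial.aeval (Sum.elim (cpt Ω w l (fun j => g j * Ω)) fun p => x p.1 p.2.1) P = 0 := by
  obtain ⟨m, N', B', H', V'', c, e, hS', hc, he⟩ := hP.plw W
  obtain ⟨G0, hG0, h⟩ := winB p_GFS (sys_bl hS hS') (bl N (0 : Matrix (Fin m) (Fin m) ℚ))
    (tv_bl hP hS hNL hT hc)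
  have hN0 : N ^ n = 0 := hS.nil
  have hN : cm N ^ n = 0 := SYS2.cm_nil hS
  have hE : ∀ z : ℂ, E (cm (bl N (0 : Matrix (Fin m) (Fin m) ℚ))) z = bl (E (cm N) z) 1 := by
    intro z
    rcases Nat.eq_zero_or_pos m with h | h
    · subst h
      rw [E_bl hN0 (by ext i; exact i.elim0), E0]
    · rw [E_bl hN0 (zero_pow (by omega)), E0]
  refine ⟨G0, hG0, fun G hG Ω q k m' d δ A => ?_⟩
  obtain ⟨Ex, h⟩ := h G hG (bl Ω 1) q k m' d δ A
  refine ⟨Ex, fun M ξ hξ hht w => ?_⟩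
  obtain ⟨S, hSc, h⟩ := h M ξ hξ hht w
  refine ⟨S, (trdeg_eq' (adj_bl (m := m) Ω)) ▸ hSc, fun u hu hub => ?_⟩
  obtain ⟨h1, h⟩ := h u hu hub
  refine ⟨h1, fun ℓ hℓ K hKf hKd P hPd hP0 l g x hg hx => ?_⟩
  have hz : ∀ j, ‖1 / (ξ - ((G * u j : ℕ) : ℂ))‖ < 1 := by
    intro j
    rw [norm_div, norm_one, div_lt_one (by linarith [h1 j])]
    exact h1 j
  have h2 := h ℓ hℓ K hKf hKd (MvPolynomial.rename (rw2 e k n q) P) ((MvPolynomial.totalDegree_rename_le _ _).trans hPd) ?_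
    l (fun i => bl (g i * E (cm N) (l i)) (Mx c (x i))) fun i => ⟨_, hT.lin _ (hz i) _ (hg i) (l i), _, hx i, rfl⟩
  · rw [MvPolynomial.aeval_rename] at h2
    have h3 : (fun i => bl (g i * E (cm N) (l i)) (Mx c (x i)) * E (cm (bl N (0 : Matrix (Fin m) (Fin m) ℚ))) (-l i) *
        bl Ω 1) = fun i => bl (g i * Ω) (Mx c (x i)) := by
      funext i
      have e1 : E (cm N) (l i) * E (cm N) (-l i) = 1 := E_mul_neg hN (l i)
      rw [hE, bl_mul, bl_mul, mul_one, mul_one, Matrix.mul_assoc (g i), e1, mul_one]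
    rw [h3, cpt_rw2] at h2
    have h4 : (fun p : Fin k × Wd W => Mx c (x p.1) (e p.2).1 (e p.2).2) = fun p => x p.1 p.2.1 := by
      funext p
      exact Mx_e he _ _
    rw [h4] at h2
    exact h2
  · rw [MvPolynomial.aeval_rename]
    have h3 : (fun i => Hf (Hcg (bl H H')) (1 / (ξ - ((G * u i : ℕ) : ℂ))) *
        E (cm (bl N (0 : Matrix (Fin m) (Fin m) ℚ))) (-ℓ i) * bl Ω 1) =
        fun i => bl (Hf (Hcg H) (1 / (ξ - ((G * u i : ℕ) : ℂ))) * E (cm N) (-ℓ i) * Ω)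
          (Hf (Hcg H') (1 / (ξ - ((G * u i : ℕ) : ℂ)))) := by
      funext i
      rw [hE, Hf_bl, bl_mul, bl_mul, mul_one, mul_one]
    rw [h3, cpt_rw2]
    have h4 : (fun p : Fin k × Wd W => Hf (Hcg H') (1 / (ξ - ((G * u p.1 : ℕ) : ℂ))) (e p.2).1 (e p.2).2) =
        fun p => vz (1 / (ξ - ((G * u p.1 : ℕ) : ℂ))) (lw p.2.1) := by
      funext p
      rw [Hf_entry, H_e hc he]
      rfl
    rw [h4]
    exact hP0

end Pool.Agent.Run7.h225.HP
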